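import Mathlib
import Pool.Agent.TH773.PSet.Defs

/-!
# The sentences 'there is a first-countable, locally countable Dowker space of size `ℵ₁`' and
'there is a Lusin set' of the forcing language

The forcing language is the one of `Pool.Agent.TH773.PSet.Defs`: a sentence is represented by the
set of the conditions which force it.

A name for a subset of a set `Z` of the ground model is a map which sends `z : Z` to the set of
the conditions attached to it (every subset of `Z` of the extension has such a name), and
`meets (A z)` is the sentence '`z` is an element of `A`'. A name for a sequence of subsets of `Z`
is a map from `ℕ` to the set of such names, and similarly for other index sets of the ground model.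
-/

set_option autoImplicit false

namespace Pool.Agent.Q300.Dow

open Pool.Agent.TH773.PSet

section Sentences

variable {P : Type} [Preorder P] {X : Type}

/-- The subset `A` of `X` is included in `B`. -/
def SubS (A B : X → Set P) : Set P := fall fun x => fimp (meets (A x)) (meets (B x))

/-- The subsets `A` and `B` of `X` are disjoint. -/
def DisjS (A B : X → Set P) : Set P := fall fun x => fnot (fand (meets (A x)) (meets (B x)))

/-- The subset `S` of `X` is countable: there is a partial map from `ω` to `X` (given by its
graph `f`) whose range includes `S`. -/
def CtblS (S : X → Set P) : Set P :=
  fex fun f : ℕ → X → Set P =>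
    fand (fall fun n => fall fun x => fall fun y => fall fun _ : x ≠ y =>
        fnot (fand (meets (f n x)) (meets (f n y))))
      (fall fun x => fimp (meets (S x)) (fex fun n => meets (f n x)))

/-- `N` is an open neighbourhood system: for every point `x` the sets `N x 0, N x 1, …` are a
decreasing sequence of sets which contain `x`, and each of them includes some `N y k` for each of
its points `y`. Such a system is the same as a first-countable topology on `X` together with a
choice of a decreasing open neighbourhood base at each point. -/
def NbSys (N : X → ℕ → X → Set P) : Set P :=
  fall fun x => fall fun j =>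
    fand (meets (N x j x)) (fand (SubS (N x (j + 1)) (N x j))
      (fall fun y => fimp (meets (N x j y)) (fex fun k => SubS (N y k) (N x j))))

/-- The set `U` is open. -/
def OpenS (N : X → ℕ → X → Set P) (U : X → Set P) : Set P :=
  fall fun x => fimp (meets (U x)) (fex fun j => SubS (N x j) U)

/-- The set `A` is closed. -/
def ClosedS (N : X → ℕ → X → Set P) (A : X → Set P) : Set P :=
  fall fun x => fimp (fnot (meets (A x))) (fex fun j => DisjS (N x j) A)

/-- Every point has a countable (open) neighbourhood. -/
def LocCtblS (N : X → ℕ → X → Set P) : Set P := fall fun x => fex fun j => CtblS (N x j)

/-- The space is `T₁`. -/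
def T1S (N : X → ℕ → X → Set P) : Set P :=
  fall fun x => fall fun y => fall fun _ : x ≠ y => fex fun j => fnot (meets (N x j y))

/-- Any two disjoint closed sets `A` and `C` are included in disjoint open sets `U` and `V`. -/
def NormalS (N : X → ℕ → X → Set P) : Set P :=
  fall fun A : X → Set P => fall fun C : X → Set P =>
    fimp (fand (ClosedS N A) (fand (ClosedS N C) (DisjS A C)))
      (fex fun U : X → Set P => fex fun V : X → Set P =>
        fand (OpenS N U) (fand (OpenS N V) (fand (SubS A U) (fand (SubS C V) (DisjS U V)))))

/-- There is a decreasing sequence of closed sets `D n` with empty intersection such that for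
every sequence of open sets `U n` with `D n ⊆ U n` the intersection of the sets `U n` is
nonempty. -/
def DowkerS (N : X → ℕ → X → Set P) : Set P :=
  fex fun D : ℕ → X → Set P =>
    fand (fall fun n => fand (ClosedS N (D n)) (SubS (D (n + 1)) (D n)))
      (fand (fall fun x => fnot (fall fun n => meets (D n x)))
        (fall fun U : ℕ → X → Set P =>
          fimp (fall fun n => fand (OpenS N (U n)) (SubS (D n) (U n)))
            (fex fun x => fall fun n => meets (U n x))))

variable (P X) in
/-- The set `X` is uncountable and carries a first-countable, locally countable Dowker topology.
This is a statement about the extension; if the ground model set `X` has cardinality `ℵ₁` in the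
ground model and is uncountable in the extension, then it has cardinality `ℵ₁` in the
extension. -/
def DowkerOn : Set P :=
  fand (fnot (CtblS fun _ : X => (Set.univ : Set P)))
    (fex fun N : X → ℕ → X → Set P =>
      fand (NbSys N) (fand (LocCtblS N) (fand (T1S N) (fand (NormalS N) (DowkerS N)))))

/-- The finite sequence `s` is an initial segment of the characteristic function of the subset `y`
of `ω`. -/
def InitS (y : ℕ → Set P) (s : List Bool) : Set P :=
  fall fun n : Fin s.length => fand (fall fun _ : s.get n = true => meets (y n))
    (fall fun _ : s.get n = false => fnot (meets (y n)))

/-- The point `y` of `2 ^ ω` belongs to the closed set coded by the set `T` of finite sequences,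
that is, all initial segments of `y` belong to `T`. -/
def InCl (T : List Bool → Set P) (y : ℕ → Set P) : Set P :=
  fall fun s => fimp (InitS y s) (meets (T s))

/-- Every finite sequence `s` can be extended to a finite sequence `t` which does not belong to
`T`; so the closed set coded by `T` is nowhere dense, and each closed nowhere dense set is coded
by such a set `T`. -/
def NwdS (T : List Bool → Set P) : Set P :=
  fall fun s => fex fun t => fex fun _ : s <+: t => fnot (meets (T t))

variable (P X) in
/-- There is an injective map `f` from `X` to `2 ^ ω` such that for each nowhere dense closed set
only countably many points are mapped into this set. If `X` is a set of size `ℵ₁`, then this says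
that there is a Lusin set. -/
def LusinOn : Set P :=
  fex fun f : X → ℕ → Set P =>
    fand (fall fun x => fall fun y => fall fun _ : x ≠ y => fnot (Same (f x) (f y)))
      (fall fun T : List Bool → Set P => fimp (NwdS T) (CtblS fun x => InCl T (f x)))

end Sentences

/-! ### The topological statements -/

/-- `X` is a first-countable, locally countable Dowker space: a first-countable normal `T₁` space
in which every point has a countable neighbourhood, and which is not countably paracompact in the
form that there are closed sets `D 0 ⊇ D 1 ⊇ ⋯` with empty intersection such that for all open
sets `U n ⊇ D n` the intersection of the sets `U n` is nonempty. -/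
structure FCLCDowker (X : Type) [TopologicalSpace X] : Prop where
  fc : FirstCountableTopology X
  lc : ∀ x : X, ∃ U : Set X, IsOpen U ∧ x ∈ U ∧ U.Countable
  t1 : T1Space X
  normal : NormalSpace X
  dowker : ∃ D : ℕ → Set X, (∀ n, IsClosed (D n)) ∧ (∀ n, D (n + 1) ⊆ D n) ∧ (⋂ n, D n) = ∅ ∧
    ∀ U : ℕ → Set X, (∀ n, IsOpen (U n)) → (∀ n, D n ⊆ U n) → (⋂ n, U n).Nonempty

/-- `L` is a Lusin set in the Cantor space. -/
def IsLusin (L : Set (ℕ → Bool)) : Prop :=
  ¬ L.Countable ∧ ∀ M : Set (ℕ → Bool), IsMeagre M → (L ∩ M).Countable

end Pool.Agent.Q300.Dow
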