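import Mathlib
import Pool.Agent.TH773.PSet.Rep

/-!
# Products of a σ-closed forcing with a measure algebra
-/

set_option autoImplicit false
set_option linter.unusedSectionVars false

namespace Pool.Agent.Q300.Dow

open Pool.Agent.TH773.PSet MeasureTheory Set

variable {Q : Type} [Preorder Q]

variable (Q) in
/-- every decreasing sequence has a lower bound -/
def SigmaClosed : Prop := ∀ q : ℕ → Q, (∀ n, q (n + 1) ≤ q n) → ∃ q', ∀ n, q' ≤ q n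

variable {Ω : Type} [MeasurableSpace Ω] {μ : Measure Ω}

theorem restr_le' {s t : Cond μ} {E : Set Ω} (hE : MeasurableSet E) (h : μ (s.1 ∩ E) ≠ 0)
    (ht : t.1 = E) : restr s E hE h ≤ t := by
  rw [le_iff_AE, ht]
  exact restr_mem _ _ _ _

theorem restr_mono {s t : Cond μ} {E : Set Ω} (hE : MeasurableSet E) (h : μ (s.1 ∩ E) ≠ 0)
    (ht : s ≤ t) : restr s E hE h ≤ t := (restr_le _ _ _ _).trans ht

/-- the family `S` consists of conditions below `r` which together with `q` belong to `Φ` -/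
def Good (Φ : Set (Q × Cond μ)) (r : Cond μ) (q : Q) (S : ℕ → Set Ω) : Prop :=
  ∀ n, S n = ∅ ∨ ∃ s : Cond μ, s.1 = S n ∧ s ≤ r ∧ (q, s) ∈ Φ

theorem Good.mono {Φ : Set (Q × Cond μ)} (hΦ : Down Φ) {r : Cond μ} {q q' : Q} (hq : q' ≤ q)
    {S : ℕ → Set Ω} (h : Good Φ r q S) : Good Φ r q' S := by
  intro n
  rcases h n with h | ⟨s, h1, h2, h3⟩
  · exact Or.inl h
  · exact Or.inr ⟨s, h1, h2, hΦ _ h3 _ ⟨hq, le_rfl⟩⟩

theorem Good.meas {Φ : Set (Q × Cond μ)} {r : Cond μ} {q : Q}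
    {S : ℕ → Set Ω} (h : Good Φ r q S) (n : ℕ) : MeasurableSet (S n) := by
  rcases h n with h | ⟨s, h1, -, -⟩
  · rw [h]; exact MeasurableSet.empty
  · rw [← h1]; exact s.2.1

variable [IsFiniteMeasure μ]

theorem greedy_step {Φ : Set (Q × Cond μ)} {r : Cond μ} (q : Q) {ε : ENNReal} (hε : ε ≠ 0) :
    ∃ q' ≤ q, ∃ S, Good Φ r q' S ∧ ∀ q'' ≤ q, ∀ S', Good Φ r q'' S' →
      μ (⋃ n, S' n) ≤ μ (⋃ n, S n) + ε := by
  let A : Set ENNReal := {v | ∃ q' ≤ q, ∃ S, Good Φ r q' S ∧ v = μ (⋃ n, S n)}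
  have hne : A.Nonempty := ⟨_, q, le_rfl, fun _ => ∅, fun _ => Or.inl rfl, rfl⟩
  have hfin : sSup A ≠ ⊤ := by
    refine ne_top_of_le_ne_top (measure_ne_top μ univ) (sSup_le ?_)
    rintro v ⟨q', -, S, -, rfl⟩
    exact measure_mono (subset_univ _)
  obtain ⟨v, ⟨q', hq', S, hS, rfl⟩, hv⟩ : ∃ v ∈ A, sSup A ≤ v + ε := by
    by_cases h0 : sSup A = 0
    · obtain ⟨v, hv⟩ := hne
      exact ⟨v, hv, by rw [h0]; exact bot_le⟩
    · have h1 : sSup A - ε < sSup A := ENNReal.sub_lt_self hfin h0 hε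
      obtain ⟨v, hv, hv'⟩ := exists_lt_of_lt_csSup hne h1
      exact ⟨v, hv, tsub_le_iff_right.1 hv'.le⟩
  exact ⟨q', hq', S, hS, fun q'' hq'' S' hS' =>
    (le_sSup (show μ (⋃ n, S' n) ∈ A from ⟨q'', hq'', S', hS', rfl⟩)).trans hv⟩

/-- The exhaustion lemma. -/
theorem exhaust (hσ : SigmaClosed Q) {Φ : Set (Q × Cond μ)} (hΦ : Down Φ) (q : Q) (r : Cond μ)
    (hd : ∀ p ≤ (q, r), ∃ p' ≤ p, p' ∈ Φ) :
    ∃ q' ≤ q, ∃ S, Good Φ r q' S ∧ μ (r.1 \ ⋃ n, S n) = 0 := by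
  classical
  have hε : ∀ n : ℕ, ((n : ENNReal) + 1)⁻¹ ≠ 0 := fun n =>
    ENNReal.inv_ne_zero.2 (by simp)
  choose f hf1 g hg hfg using fun (n : ℕ) (q : Q) =>
    greedy_step (Φ := Φ) (r := r) (μ := μ) q (hε n)
  let qs : ℕ → Q := fun n => Nat.rec q (fun n q => f n q) n
  have hqs : ∀ n, qs (n + 1) = f n (qs n) := fun n => rfl
  obtain ⟨q', hq'⟩ := hσ qs fun n => by rw [hqs]; exact hf1 _ _
  let T : ℕ → Set Ω := fun k => g k.unpair.1 (qs k.unpair.1) k.unpair.2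
  have hT : Good Φ r q' T := by
    intro k
    exact Good.mono hΦ (show q' ≤ f k.unpair.1 (qs k.unpair.1) from hq' (k.unpair.1 + 1))
      (hg k.unpair.1 (qs k.unpair.1)) k.unpair.2
  have hsub : ∀ n, (⋃ k, g n (qs n) k) ⊆ ⋃ k, T k := by
    intro n x hx
    obtain ⟨k, hk⟩ := mem_iUnion.1 hx
    refine mem_iUnion.2 ⟨Nat.pair n k, ?_⟩
    simpa [T] using hk
  have hTm : MeasurableSet (⋃ k, T k) := MeasurableSet.iUnion hT.meas
  refine ⟨q', hq' 0, T, hT, ?_⟩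
  by_contra hne
  have hne' : μ (r.1 ∩ (⋃ k, T k)ᶜ) ≠ 0 := hne
  let s0 : Cond μ := restr r _ hTm.compl hne'
  obtain ⟨⟨q'', s⟩, ⟨hq'', hs⟩, hsΦ⟩ := hd (q', s0) ⟨hq' 0, restr_le r _ hTm.compl hne'⟩
  simp only at hq'' hs
  have hs1 : μ (s.1 \ (⋃ k, T k)ᶜ) = 0 := by
    have h1 : s ∈ AE μ (⋃ k, T k)ᶜ := down_AE _ _ (restr_mem r _ hTm.compl hne') _ hs
    exact h1
  let T' : ℕ → Set Ω := fun n => Nat.casesOn n s.1 T
  have hT' : Good Φ r q'' T' := by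
    intro n
    rcases n with _ | n
    · exact Or.inr ⟨s, rfl, hs.trans (restr_le r _ hTm.compl hne'), hsΦ⟩
    · exact Good.mono hΦ hq'' hT n
  have hun : (⋃ n, T' n) = (⋃ n, T n) ∪ s.1 := by
    ext x
    simp only [mem_union, mem_iUnion]
    constructor
    · rintro ⟨_ | n, h⟩
      · exact Or.inr h
      · exact Or.inl ⟨n, h⟩
    · rintro (⟨n, h⟩ | h)
      · exact ⟨n + 1, h⟩
      · exact ⟨0, h⟩
  have hmu : μ (⋃ n, T' n) = μ (⋃ n, T n) + μ (s.1 \ ⋃ n, T n) := by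
    rw [hun, ← union_sdiff_self, measure_union disjoint_sdiff_right (s.2.1.diff hTm)]
  have hle : ∀ n : ℕ, μ (s.1 \ ⋃ n, T n) ≤ ((n : ENNReal) + 1)⁻¹ := by
    intro n
    have h1 := hfg n (qs n) q'' (hq''.trans (hq' n)) T' hT'
    have h2 : μ (⋃ k, g n (qs n) k) ≤ μ (⋃ k, T k) := measure_mono (hsub n)
    rw [hmu] at h1
    have h3 : μ (⋃ n, T n) + μ (s.1 \ ⋃ n, T n) ≤ μ (⋃ n, T n) + ((n : ENNReal) + 1)⁻¹ :=
      h1.trans (add_le_add_left h2 _)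
    exact (ENNReal.add_le_add_iff_left (measure_ne_top _ _)).1 h3
  have hzero : μ (s.1 \ ⋃ n, T n) = 0 := by
    by_contra h0
    obtain ⟨n, hn⟩ := ENNReal.exists_inv_nat_lt h0
    have h1 := hle n
    have h2 : ((n : ENNReal) + 1)⁻¹ ≤ (n : ENNReal)⁻¹ := ENNReal.inv_le_inv.2 le_self_add
    exact absurd (lt_of_le_of_lt (h1.trans h2) hn) (lt_irrefl _)
  refine s.2.2 (measure_mono_null ?_ (measure_union_null hzero hs1))
  intro x hx
  by_cases hx' : x ∈ ⋃ k, T k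
  · exact Or.inr ⟨hx, fun h => h hx'⟩
  · exact Or.inl ⟨hx, hx'⟩

/-- A condition which is covered by countably many sets is not almost disjoint from all of
them. -/
theorem exists_hit {S : ℕ → Set Ω} {s : Cond μ} (h : μ (s.1 \ ⋃ n, S n) = 0) :
    ∃ n, μ (s.1 ∩ S n) ≠ 0 := by
  by_contra hcon
  push Not at hcon
  refine s.2.2 ?_
  have h3 : μ (⋃ n, s.1 ∩ S n) = 0 := measure_iUnion_null hcon
  refine measure_mono_null ?_ (measure_union_null h3 h)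
  intro x hx
  by_cases hx' : x ∈ ⋃ n, S n
  · obtain ⟨n, hn⟩ := mem_iUnion.1 hx'
    exact Or.inl (mem_iUnion.2 ⟨n, hx, hn⟩)
  · exact Or.inr ⟨hx, hx'⟩

theorem diff_mono {s r : Cond μ} (hs : s ≤ r) {T : Set Ω} (h : μ (r.1 \ T) = 0) :
    μ (s.1 \ T) = 0 := by
  refine measure_mono_null ?_ (measure_union_null (show μ (s.1 \ r.1) = 0 from hs) h)
  intro x hx
  by_cases hx' : x ∈ r.1
  · exact Or.inr ⟨hx', hx.2⟩
  · exact Or.inl ⟨hx.1, hx'⟩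

/-- A regular statement which is forced by `(q, s)` for countably many `s` which cover `r` is
forced by `(q, r)`. -/
theorem mem_of_good {Φ φ : Set (Q × Cond μ)} (hφ : Reg φ) {r : Cond μ} {q : Q} {S : ℕ → Set Ω}
    (hS : Good Φ r q S) (hr : μ (r.1 \ ⋃ n, S n) = 0)
    (h : ∀ n, ∀ s : Cond μ, s.1 = S n → s ≤ r → (q, s) ∈ Φ → (q, s) ∈ φ) : (q, r) ∈ φ := by
  refine hφ.2 _ fun p hp => ?_
  obtain ⟨q', s⟩ := p
  obtain ⟨hq', hs⟩ := hp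
  simp only at hq' hs
  obtain ⟨n, hn⟩ := exists_hit (diff_mono hs hr)
  rcases hS n with h1 | ⟨t, h1, h2, h3⟩
  · rw [h1, inter_empty, measure_empty] at hn
    exact absurd rfl hn
  · refine ⟨(q', restr s (S n) (hS.meas n) hn), ⟨le_rfl, restr_le s _ (hS.meas n) hn⟩, ?_⟩
    exact hφ.1 _ (h n t h1 h2 h3) _ ⟨hq', restr_le' (hS.meas n) hn h1⟩

/-! ### Deciding statements -/

/-- The condition `q` decides the truth value `B` of the statement `φ`. -/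
def Dcd (q : Q) (φ : Set (Q × Cond μ)) (B : Set Ω) : Prop :=
  ∀ s : Cond μ, (s ∈ AE μ B → (q, s) ∈ φ) ∧ (s ∈ AE μ Bᶜ → (q, s) ∈ fnot φ)

omit [IsFiniteMeasure μ] in
theorem Dcd.mono {q q' : Q} {φ : Set (Q × Cond μ)} (hφ : Down φ) {B : Set Ω} (hq : q' ≤ q)
    (h : Dcd q φ B) : Dcd q' φ B := fun s =>
  ⟨fun hs => hφ _ ((h s).1 hs) _ ⟨hq, le_rfl⟩,
    fun hs => down_fnot φ _ ((h s).2 hs) _ ⟨hq, le_rfl⟩⟩

theorem decide_one [IsProbabilityMeasure μ] (hσ : SigmaClosed Q) {φ : Set (Q × Cond μ)}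
    (hφ : Reg φ) (q : Q) : ∃ q' ≤ q, ∃ B, MeasurableSet B ∧ Dcd q' φ B := by
  classical
  let r : Cond μ := ⟨univ, MeasurableSet.univ, by simp⟩
  obtain ⟨q', hq', S, hS, hr⟩ := exhaust (μ := μ) hσ (Φ := {p | p ∈ φ ∨ p ∈ fnot φ})
    (by
      rintro p (hp | hp) p' hp'
      · exact Or.inl (hφ.1 _ hp _ hp')
      · exact Or.inr (down_fnot φ _ hp _ hp')) q r
    (by
      intro p _
      by_cases h : ∃ p' ≤ p, p' ∈ φ
      · obtain ⟨p', h1, h2⟩ := h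
        exact ⟨p', h1, Or.inl h2⟩
      · push Not at h
        exact ⟨p, le_rfl, Or.inr h⟩)
  let B : Set Ω := ⋃ n, if (∃ s : Cond μ, s.1 = S n ∧ (q', s) ∈ φ) then S n else ∅
  have hBm : MeasurableSet B := by
    refine MeasurableSet.iUnion fun n => ?_
    split_ifs
    · exact hS.meas n
    · exact MeasurableSet.empty
  refine ⟨q', hq', B, hBm, fun s => ⟨fun hs => ?_, fun hs => ?_⟩⟩
  · refine hφ.2 _ fun p hp => ?_
    obtain ⟨q'', t⟩ := p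
    obtain ⟨hq'', ht⟩ := hp
    simp only at hq'' ht
    obtain ⟨n, hn⟩ := exists_hit (diff_mono ht hs)
    by_cases hex : ∃ s : Cond μ, s.1 = S n ∧ (q', s) ∈ φ
    · simp only [if_pos hex] at hn
      obtain ⟨u, hu1, hu2⟩ := hex
      exact ⟨(q'', restr t (S n) (hS.meas n) hn), ⟨le_rfl, restr_le t _ (hS.meas n) hn⟩,
        hφ.1 _ hu2 _ ⟨hq'', restr_le' (hS.meas n) hn hu1⟩⟩
    · simp only [if_neg hex, inter_empty, measure_empty] at hn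
      exact absurd rfl hn
  · refine (reg_fnot hφ.1).2 _ fun p hp => ?_
    obtain ⟨q'', t⟩ := p
    obtain ⟨hq'', ht⟩ := hp
    simp only at hq'' ht
    have ht' : μ (t.1 \ Bᶜ) = 0 := diff_mono ht hs
    obtain ⟨n, hn⟩ := exists_hit (diff_mono (show t ≤ r from by
      show μ (t.1 \ univ) = 0
      simp) hr)
    rcases hS n with h1 | ⟨u, h1, h2, h3⟩
    · rw [h1, inter_empty, measure_empty] at hn
      exact absurd rfl hn
    · rcases h3 with h3 | h3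
      · exfalso
        apply hn
        refine measure_mono_null ?_ ht'
        rintro x ⟨hx1, hx2⟩
        refine ⟨hx1, fun hx3 => hx3 (mem_iUnion.2 ⟨n, ?_⟩)⟩
        rw [if_pos ⟨u, h1, h3⟩]
        exact hx2
      · exact ⟨(q'', restr t (S n) (hS.meas n) hn), ⟨le_rfl, restr_le t _ (hS.meas n) hn⟩,
          down_fnot φ _ h3 _ ⟨hq'', restr_le' (hS.meas n) hn h1⟩⟩

theorem decide_seq [IsProbabilityMeasure μ] (hσ : SigmaClosed Q) {φ : ℕ → Set (Q × Cond μ)}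
    (hφ : ∀ n, Reg (φ n)) (q : Q) :
    ∃ q' ≤ q, ∃ B : ℕ → Set Ω, ∀ n, MeasurableSet (B n) ∧ Dcd q' (φ n) (B n) := by
  choose f hf1 B hB hf using fun (n : ℕ) (q : Q) => decide_one (μ := μ) hσ (hφ n) q
  let qs : ℕ → Q := fun n => Nat.rec q (fun n q => f n q) n
  have hqs : ∀ n, qs (n + 1) = f n (qs n) := fun n => rfl
  obtain ⟨q', hq'⟩ := hσ qs fun n => by rw [hqs]; exact hf1 _ _
  exact ⟨q', hq' 0, fun n => B n (qs n), fun n => ⟨hB _ _,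
    Dcd.mono (hφ n).1 (show q' ≤ f n (qs n) from hq' (n + 1)) (hf n (qs n))⟩⟩

/-! ### Bounding -/

variable {W : Type} [LinearOrder W]

theorem bound_one (hb : ∀ C : Set W, C.Countable → ∃ d, ∀ c ∈ C, c < d)
    (hσ : SigmaClosed Q) {ψ : W → Set (Q × Cond μ)} (hψ : ∀ δ, Reg (ψ δ))
    (hmono : ∀ δ δ', δ ≤ δ' → ψ δ ⊆ ψ δ') {q : Q} {r : Cond μ}
    (h : ∀ p ≤ (q, r), ∃ p' ≤ p, ∃ δ, p' ∈ ψ δ) : ∃ q' ≤ q, ∃ γ, (q', r) ∈ ψ γ := by
  classical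
  obtain ⟨q', hq', S, hS, hr⟩ := exhaust (μ := μ) hσ (Φ := {p | ∃ δ, p ∈ ψ δ})
    (by
      rintro p ⟨δ, hδ⟩ p' hp'
      exact ⟨δ, (hψ δ).1 _ hδ _ hp'⟩) q r h
  obtain ⟨δ0, hδ0⟩ := hb ∅ countable_empty
  have hex : ∀ n, ∃ δ, ∀ s : Cond μ, s.1 = S n → (q', s) ∈ {p | ∃ δ, p ∈ ψ δ} → (q', s) ∈ ψ δ := by
    intro n
    by_cases hn : ∃ s : Cond μ, s.1 = S n ∧ (q', s) ∈ {p | ∃ δ, p ∈ ψ δ}
    · obtain ⟨s, hs, δ, hδ⟩ := hn
      refine ⟨δ, fun s' hs' _ => ?_⟩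
      have : s' = s := Subtype.ext (hs'.trans hs.symm)
      rw [this]
      exact hδ
    · exact ⟨δ0, fun s hs hs' => absurd ⟨s, hs, hs'⟩ hn⟩
  choose δ hδ using hex
  obtain ⟨γ, hγ⟩ := hb (range δ) (countable_range δ)
  refine ⟨q', hq', γ, mem_of_good (hψ γ) hS hr fun n s h1 _ h3 => ?_⟩
  exact hmono _ _ (hγ _ ⟨n, rfl⟩).le (hδ n s h1 h3)

theorem bound_seq (hb : ∀ C : Set W, C.Countable → ∃ d, ∀ c ∈ C, c < d)
    (hσ : SigmaClosed Q) {ψ : ℕ → W → Set (Q × Cond μ)} (hψ : ∀ n δ, Reg (ψ n δ))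
    (hmono : ∀ n δ δ', δ ≤ δ' → ψ n δ ⊆ ψ n δ') {q : Q} {r : Cond μ}
    (h : ∀ n, ∀ p ≤ (q, r), ∃ p' ≤ p, ∃ δ, p' ∈ ψ n δ) :
    ∃ q' ≤ q, ∃ γ, ∀ n, (q', r) ∈ ψ n γ := by
  have hstep : ∀ (n : ℕ) (q1 : Q), ∃ q2, ∃ γ, q1 ≤ q → (q2 ≤ q1 ∧ (q2, r) ∈ ψ n γ) := by
    intro n q1
    by_cases h1 : q1 ≤ q
    · obtain ⟨q2, h2, γ, h3⟩ := bound_one (μ := μ) hb hσ (hψ n) (hmono n) (q := q1) (r := r)
        fun p hp => h n p (hp.trans ⟨h1, le_rfl⟩)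
      exact ⟨q2, γ, fun _ => ⟨h2, h3⟩⟩
    · obtain ⟨δ0, hδ0⟩ := hb ∅ countable_empty
      exact ⟨q1, δ0, fun h2 => absurd h2 h1⟩
  choose f γ hf using hstep
  let qs : ℕ → Q := fun n => Nat.rec q (fun n q => f n q) n
  have hqs : ∀ n, qs (n + 1) = f n (qs n) := fun n => rfl
  have hle : ∀ n, qs n ≤ q := by
    intro n
    induction n with
    | zero => exact le_rfl
    | succ n ih => rw [hqs]; exact (hf n (qs n) ih).1.trans ih
  obtain ⟨q', hq'⟩ := hσ qs fun n => by rw [hqs]; exact (hf n (qs n) (hle n)).1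
  obtain ⟨δ, hδ⟩ := hb (range fun n => γ n (qs n)) (countable_range _)
  refine ⟨q', hq' 0, δ, fun n => ?_⟩
  refine hmono n _ _ (hδ _ ⟨n, rfl⟩).le ((hψ n _).1 _ (hf n (qs n) (hle n)).2 _ ⟨?_, le_rfl⟩)
  exact hq' (n + 1)

end Pool.Agent.Q300.Dow
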