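import Mathlib
import Pool.Agent.TH773.PSet.Ground
import Pool.Agent.Q300.Dow.Defs

/-!
# The sentences in the ground model

For the trivial forcing the sentences `DowkerOn` and `LusinOn` are equivalent to the topological
statements which they express.
-/

set_option autoImplicit false
set_option linter.unusedSectionVars false

namespace Pool.Agent.Q300.Dow

open Pool.Agent.TH773.PSet Set Cardinal Topology

section Ctbl

variable {X : Type}

theorem u_CtblS {S : X → Set Unit} : () ∈ CtblS S ↔ {x | () ∈ S x}.Countable := by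
  unfold CtblS
  simp only [u_fex, u_fand, u_fall, u_fimp, u_meets, u_fnot]
  constructor
  · rintro ⟨f, h1, h2⟩
    have h3 : {x | () ∈ S x} ⊆ ⋃ n, {x | () ∈ f n x} := by
      intro x hx
      obtain ⟨n, hn⟩ := h2 x hx
      exact mem_iUnion.2 ⟨n, hn⟩
    refine (countable_iUnion fun n => ?_).mono h3
    refine Set.Subsingleton.countable fun x hx y hy => ?_
    by_contra hne
    exact h1 n x y hne ⟨hx, hy⟩
  · intro h
    by_cases hne : {x | () ∈ S x}.Nonempty
    · obtain ⟨e, he⟩ := h.exists_eq_range hne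
      refine ⟨fun n x => {_u | e n = x}, fun n x y hxy h => hxy ?_, fun x hx => ?_⟩
      · exact (show e n = x from h.1).symm.trans h.2
      · have h1 : x ∈ {x | () ∈ S x} := hx
        rw [he] at h1
        exact h1
    · exact ⟨fun _ _ => ∅, fun _ _ _ _ h => h.1, fun x hx => absurd ⟨x, hx⟩ hne⟩

end Ctbl

section Space

variable {X : Type}

/-- `N` is a decreasing open neighbourhood base at each point -/
structure GoodSys (τ : TopologicalSpace X) (N : X → ℕ → Set X) : Prop where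
  self : ∀ x j, x ∈ N x j
  anti : ∀ x j, N x (j + 1) ⊆ N x j
  op : ∀ U : Set X, IsOpen[τ] U ↔ ∀ x ∈ U, ∃ j, N x j ⊆ U
  opN : ∀ x j, ∀ y ∈ N x j, ∃ k, N y k ⊆ N x j

theorem GoodSys.antitone {τ : TopologicalSpace X} {N : X → ℕ → Set X} (h : GoodSys τ N) (x : X) :
    Antitone (N x) := antitone_nat_of_succ_le (h.anti x)

theorem exists_top {N : X → ℕ → Set X} (h1 : ∀ x j, x ∈ N x j) (h2 : ∀ x j, N x (j + 1) ⊆ N x j)
    (h3 : ∀ x j, ∀ y ∈ N x j, ∃ k, N y k ⊆ N x j) : ∃ τ : TopologicalSpace X, GoodSys τ N := by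
  have hanti : ∀ x, Antitone (N x) := fun x => antitone_nat_of_succ_le (h2 x)
  refine ⟨{ IsOpen := fun U => ∀ x ∈ U, ∃ j, N x j ⊆ U
            isOpen_univ := fun x _ => ⟨0, subset_univ _⟩
            isOpen_inter := ?_
            isOpen_sUnion := ?_ }, h1, h2, fun U => Iff.rfl, h3⟩
  · rintro U V hU hV x ⟨hx1, hx2⟩
    obtain ⟨j, hj⟩ := hU x hx1
    obtain ⟨k, hk⟩ := hV x hx2
    exact ⟨max j k, subset_inter ((hanti x (le_max_left _ _)).trans hj)
      ((hanti x (le_max_right _ _)).trans hk)⟩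
  · rintro S hS x ⟨U, hU, hx⟩
    obtain ⟨j, hj⟩ := hS U hU x hx
    exact ⟨j, hj.trans (subset_sUnion_of_mem hU)⟩

theorem exists_sys (τ : TopologicalSpace X) [FirstCountableTopology X] :
    ∃ N : X → ℕ → Set X, GoodSys τ N := by
  choose V hV using fun x : X => (𝓝 x).exists_antitone_basis
  have hop : ∀ x j, IsOpen (interior (V x j)) := fun x j => isOpen_interior
  have hmem : ∀ x j, x ∈ interior (V x j) := fun x j =>
    mem_interior_iff_mem_nhds.2 ((hV x).1.mem_of_mem trivial)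
  have hbase : ∀ x, ∀ U ∈ 𝓝 x, ∃ j, interior (V x j) ⊆ U := by
    intro x U hU
    obtain ⟨j, -, hj⟩ := (hV x).1.mem_iff.1 hU
    exact ⟨j, interior_subset.trans hj⟩
  refine ⟨fun x j => interior (V x j), hmem, fun x j =>
    interior_mono ((hV x).2 (Nat.le_succ j)), fun U => ⟨?_, ?_⟩, ?_⟩
  · intro hU x hx
    exact hbase x U (hU.mem_nhds hx)
  · intro h
    rw [isOpen_iff_mem_nhds]
    intro x hx
    obtain ⟨j, hj⟩ := h x hx
    exact Filter.mem_of_superset ((hop x j).mem_nhds (hmem x j)) hj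
  · intro x j y hy
    exact hbase y _ ((hop x j).mem_nhds hy)

variable {τ : TopologicalSpace X} {N : X → ℕ → Set X}

theorem GoodSys.isOpen (h : GoodSys τ N) (x : X) (j : ℕ) : IsOpen (N x j) :=
  (h.op _).2 (h.opN x j)

theorem GoodSys.basis (h : GoodSys τ N) (x : X) : (𝓝 x).HasBasis (fun _ => True) (N x) := by
  refine Filter.hasBasis_iff.2 fun U => ⟨fun hU => ?_, ?_⟩
  · obtain ⟨V, hVU, hV, hx⟩ := mem_nhds_iff.1 hU
    obtain ⟨j, hj⟩ := (h.op V).1 hV x hx
    exact ⟨j, trivial, hj.trans hVU⟩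
  · rintro ⟨j, -, hj⟩
    exact Filter.mem_of_superset ((h.isOpen x j).mem_nhds (h.self x j)) hj

theorem GoodSys.fc (h : GoodSys τ N) : FirstCountableTopology X :=
  ⟨fun x => (h.basis x).isCountablyGenerated⟩

theorem GoodSys.closed_iff (h : GoodSys τ N) (A : Set X) :
    IsClosed A ↔ ∀ x, x ∉ A → ∃ j, ∀ y, ¬ (y ∈ N x j ∧ y ∈ A) := by
  rw [← isOpen_compl_iff, h.op]
  refine forall_congr' fun x => forall_congr' fun _ => exists_congr fun j => ?_
  exact ⟨fun h y hy => h hy.1 hy.2, fun h y hy hy' => h y ⟨hy, hy'⟩⟩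

/-- the set named by `A` -/
def val (A : X → Set Unit) : Set X := {x | () ∈ A x}

/-- the neighbourhood system named by `N` -/
def valN (N : X → ℕ → X → Set Unit) (x : X) (j : ℕ) : Set X := val (N x j)

theorem u_SubS {A B : X → Set Unit} : () ∈ SubS A B ↔ val A ⊆ val B := by
  unfold SubS
  simp only [u_fall, u_fimp, u_meets]
  rfl

theorem u_DisjS {A B : X → Set Unit} : () ∈ DisjS A B ↔ ∀ y, ¬ (y ∈ val A ∧ y ∈ val B) := by
  unfold DisjS
  simp only [u_fall, u_fnot, u_fand, u_meets]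
  rfl

theorem u_OpenS (N : X → ℕ → X → Set Unit) {τ : TopologicalSpace X} (h : GoodSys τ (valN N))
    (U : X → Set Unit) : () ∈ OpenS N U ↔ IsOpen (val U) := by
  rw [h.op]
  unfold OpenS
  simp only [u_fall, u_fimp, u_meets, u_fex, u_SubS]
  rfl

theorem u_ClosedS (N : X → ℕ → X → Set Unit) {τ : TopologicalSpace X} (h : GoodSys τ (valN N))
    (A : X → Set Unit) : () ∈ ClosedS N A ↔ IsClosed (val A) := by
  rw [h.closed_iff]
  unfold ClosedS
  simp only [u_fall, u_fimp, u_meets, u_fex, u_fnot, u_DisjS]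
  rfl

theorem u_NbSys (N : X → ℕ → X → Set Unit) : () ∈ NbSys N ↔
    (∀ x j, x ∈ valN N x j) ∧ (∀ x j, valN N x (j + 1) ⊆ valN N x j) ∧
      (∀ x j, ∀ y ∈ valN N x j, ∃ k, valN N y k ⊆ valN N x j) := by
  unfold NbSys
  simp only [u_fall, u_fimp, u_meets, u_fex, u_fand, u_SubS]
  exact ⟨fun h => ⟨fun x j => (h x j).1, fun x j => (h x j).2.1, fun x j => (h x j).2.2⟩,
    fun h x j => ⟨h.1 x j, h.2.1 x j, h.2.2 x j⟩⟩

/-- every set has a name -/
def nm (A : Set X) : X → Set Unit := fun x => {_u | x ∈ A}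

theorem val_nm (A : Set X) : val (nm A) = A := rfl

theorem u_NormalS (N : X → ℕ → X → Set Unit) {τ : TopologicalSpace X} (h : GoodSys τ (valN N)) :
    () ∈ NormalS N ↔ NormalSpace X := by
  unfold NormalS
  simp only [u_fall, u_fimp, u_fex, u_fand, u_SubS, u_ClosedS N h, u_OpenS N h, u_DisjS]
  constructor
  · intro h1
    refine ⟨fun A C hA hC hAC => ?_⟩
    obtain ⟨U, V, hU, hV, hAU, hCV, hUV⟩ := h1 (nm A) (nm C)
      ⟨hA, hC, fun y hy => Set.disjoint_left.1 hAC hy.1 hy.2⟩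
    exact ⟨val U, val V, hU, hV, hAU, hCV, Set.disjoint_left.2 fun y h2 h3 => hUV y ⟨h2, h3⟩⟩
  · rintro h1 A C ⟨hA, hC, hAC⟩
    obtain ⟨U, V, hU, hV, hAU, hCV, hUV⟩ := h1.normal (val A) (val C) hA hC
      (Set.disjoint_left.2 fun y h2 h3 => hAC y ⟨h2, h3⟩)
    exact ⟨nm U, nm V, hU, hV, hAU, hCV, fun y hy => Set.disjoint_left.1 hUV hy.1 hy.2⟩

theorem u_DowkerS (N : X → ℕ → X → Set Unit) {τ : TopologicalSpace X} (h : GoodSys τ (valN N)) :
    () ∈ DowkerS N ↔ ∃ D : ℕ → Set X, (∀ n, IsClosed (D n)) ∧ (∀ n, D (n + 1) ⊆ D n) ∧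
      (⋂ n, D n) = ∅ ∧
        ∀ U : ℕ → Set X, (∀ n, IsOpen (U n)) → (∀ n, D n ⊆ U n) → (⋂ n, U n).Nonempty := by
  unfold DowkerS
  simp only [u_fall, u_fimp, u_fex, u_fand, u_SubS, u_ClosedS N h, u_OpenS N h, u_fnot, u_meets]
  constructor
  · rintro ⟨D, h1, h2, h3⟩
    refine ⟨fun n => val (D n), fun n => (h1 n).1, fun n => (h1 n).2, ?_, ?_⟩
    · ext x
      simp only [mem_iInter, mem_empty_iff_false, iff_false]
      exact h2 x
    · intro U hU hDU
      obtain ⟨x, hx⟩ := h3 (fun n => nm (U n)) fun n => ⟨hU n, hDU n⟩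
      exact ⟨x, mem_iInter.2 hx⟩
  · rintro ⟨D, h1, h2, h3, h4⟩
    refine ⟨fun n => nm (D n), fun n => ⟨h1 n, h2 n⟩, fun x hx => ?_, fun U hU => ?_⟩
    · have : x ∈ (⋂ n, D n) := mem_iInter.2 hx
      rw [h3] at this
      exact this
    · obtain ⟨x, hx⟩ := h4 (fun n => val (U n)) (fun n => (hU n).1) fun n => (hU n).2
      exact ⟨x, fun n => mem_iInter.1 hx n⟩

theorem u_LocCtblS (N : X → ℕ → X → Set Unit) {τ : TopologicalSpace X} (h : GoodSys τ (valN N)) :
    () ∈ LocCtblS N ↔ ∀ x : X, ∃ U : Set X, IsOpen U ∧ x ∈ U ∧ U.Countable := by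
  unfold LocCtblS
  simp only [u_fall, u_fex, u_CtblS]
  refine forall_congr' fun x => ⟨?_, ?_⟩
  · rintro ⟨j, hj⟩
    exact ⟨valN N x j, h.isOpen x j, h.self x j, hj⟩
  · rintro ⟨U, hU, hx, hc⟩
    obtain ⟨j, hj⟩ := (h.op U).1 hU x hx
    exact ⟨j, hc.mono hj⟩

theorem u_T1S (N : X → ℕ → X → Set Unit) {τ : TopologicalSpace X} (h : GoodSys τ (valN N)) :
    () ∈ T1S N ↔ T1Space X := by
  unfold T1S
  simp only [u_fall, u_fex, u_fnot, u_meets]
  rw [t1Space_iff_exists_open]
  constructor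
  · intro h1 x y hxy
    obtain ⟨j, hj⟩ := h1 x y hxy
    exact ⟨valN N x j, h.isOpen x j, h.self x j, hj⟩
  · intro h1 x y hxy
    obtain ⟨U, hU, hx, hy⟩ := h1 hxy
    obtain ⟨j, hj⟩ := (h.op U).1 hU x hx
    exact ⟨j, fun h => hy (hj h)⟩

theorem not_countable_univ (hX : #X = ℵ₁) : ¬ (univ : Set X).Countable := by
  rw [← Cardinal.le_aleph0_iff_set_countable, Cardinal.mk_univ, hX, not_le]
  exact Cardinal.aleph0_lt_aleph_one

theorem u_DowkerOn (hX : #X = ℵ₁) :
    () ∈ DowkerOn Unit X ↔ ∃ τ : TopologicalSpace X, @FCLCDowker X τ := by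
  unfold DowkerOn
  simp only [u_fand, u_fex, u_fnot, u_CtblS, u_NbSys]
  constructor
  · rintro ⟨-, N, ⟨h1, h2, h3⟩, h4, h5, h6, h7⟩
    obtain ⟨τ, h⟩ := exists_top h1 h2 h3
    exact ⟨τ, h.fc, (u_LocCtblS N h).1 h4, (u_T1S N h).1 h5, (u_NormalS N h).1 h6,
      (u_DowkerS N h).1 h7⟩
  · rintro ⟨τ, h1, h2, h3, h4, h5⟩
    refine ⟨fun h => not_countable_univ hX ?_, ?_⟩
    · exact h.mono fun x _ => mem_univ ()
    obtain ⟨M, hM⟩ := exists_sys τ
    have h : GoodSys τ (valN fun x j => nm (M x j)) := hM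
    exact ⟨fun x j => nm (M x j), ⟨h.self, h.anti, h.opN⟩, (u_LocCtblS _ h).2 h2,
      (u_T1S _ h).2 h3, (u_NormalS _ h).2 h4, (u_DowkerS _ h).2 h5⟩

end Space

section Lusin

/-- `s` is an initial segment of `z` -/
def Init (z : ℕ → Bool) (s : List Bool) : Prop := ∀ n : Fin s.length, z n = s.get n

/-- the initial segment of `z` of length `n` -/
def seg (z : ℕ → Bool) (n : ℕ) : List Bool := List.ofFn fun k : Fin n => z k

theorem init_seg {w z : ℕ → Bool} {n : ℕ} : Init w (seg z n) ↔ ∀ k < n, w k = z k := by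
  unfold Init seg
  constructor
  · intro h k hk
    have := h ⟨k, by simpa using hk⟩
    simpa using this
  · intro h k
    have hk : (k : ℕ) < n := by simpa using k.2
    simpa using h k hk

theorem seg_prefix (w : ℕ → Bool) {a b : ℕ} (h : a ≤ b) : seg w a <+: seg w b := by
  rw [List.prefix_iff_eq_take]
  refine List.ext_getElem (by simp [seg, h]) fun k h2 h3 => ?_
  simp [seg]

theorem Init.of_prefix {z : ℕ → Bool} {s t : List Bool} (h : s <+: t) (hz : Init z t) :
    Init z s := by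
  intro n
  have h1 := hz ⟨n, n.2.trans_le h.length_le⟩
  rw [h1]
  simp only [List.get_eq_getElem]
  exact (h.getElem n.2).symm

theorem exists_cyl {U : Set (ℕ → Bool)} (hU : IsOpen U) {z : ℕ → Bool} (hz : z ∈ U) :
    ∃ n, ∀ w, (∀ k < n, w k = z k) → w ∈ U := by
  obtain ⟨I, u, hu, hsub⟩ := isOpen_pi_iff.1 hU z hz
  refine ⟨I.sup id + 1, fun w hw => hsub fun a ha => ?_⟩
  rw [hw a (Nat.lt_succ_of_le (Finset.le_sup (f := id) ha))]
  exact (hu a ha).2

theorem isOpen_init (s : List Bool) : IsOpen {z : ℕ → Bool | Init z s} := by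
  have : {z : ℕ → Bool | Init z s} = ⋂ n : Fin s.length, {z | z n = s.get n} := by
    ext z
    simp [Init]
  rw [this]
  refine isOpen_iInter_of_finite fun n => ?_
  have h1 : Continuous fun z : ℕ → Bool => z n := continuous_apply _
  exact (isOpen_discrete ({s.get n} : Set Bool)).preimage h1

theorem isClosed_init (s : List Bool) : IsClosed {z : ℕ → Bool | Init z s} := by
  have : {z : ℕ → Bool | Init z s} = ⋂ n : Fin s.length, {z | z n = s.get n} := by
    ext z
    simp [Init]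
  rw [this]
  refine isClosed_iInter fun n => ?_
  have h1 : Continuous fun z : ℕ → Bool => z n := continuous_apply _
  exact (isClosed_discrete ({s.get n} : Set Bool)).preimage h1

theorem exists_init (s : List Bool) : ∃ z, Init z s :=
  ⟨fun n => s.getD n false, fun n => by
    show s.getD (n : ℕ) false = s.get n
    rw [List.getD_eq_getElem _ _ n.2]
    rfl⟩

/-- `T` is a code of a nowhere dense closed set -/
def NwdCode (T : Set (List Bool)) : Prop := ∀ s, ∃ t, s <+: t ∧ t ∉ T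

/-- the closed set with the code `T` -/
def Cl (T : Set (List Bool)) : Set (ℕ → Bool) := {z | ∀ s, Init z s → s ∈ T}

theorem nwd_Cl {T : Set (List Bool)} (hT : NwdCode T) : IsNowhereDense (Cl T) := by
  have hcl : IsClosed (Cl T) := by
    have : Cl T = ⋂ s : List Bool, ⋂ (_ : s ∉ T), {z : ℕ → Bool | Init z s}ᶜ := by
      ext z
      simp only [Cl, mem_ofPred_eq, mem_iInter, mem_compl_iff]
      exact forall_congr' fun s => not_imp_not.symm
    rw [this]
    exact isClosed_iInter fun s => isClosed_iInter fun _ => (isOpen_init s).isClosed_compl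
  unfold IsNowhereDense
  rw [hcl.closure_eq, Set.eq_empty_iff_forall_notMem]
  intro z hz
  obtain ⟨n, hn⟩ := exists_cyl isOpen_interior hz
  obtain ⟨t, ht, htT⟩ := hT (seg z n)
  obtain ⟨w, hw⟩ := exists_init t
  have h1 : w ∈ interior (Cl T) := hn w (init_seg.1 (hw.of_prefix ht))
  exact htT (interior_subset h1 t hw)

theorem exists_code {M : Set (ℕ → Bool)} (hM : IsNowhereDense M) :
    ∃ T, NwdCode T ∧ M ⊆ Cl T := by
  refine ⟨{s | ∃ z ∈ M, Init z s}, fun s => ?_, fun z hz s hs => ⟨z, hz, hs⟩⟩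
  by_contra hcon
  push Not at hcon
  obtain ⟨z, hz⟩ := exists_init s
  have hsub : {z : ℕ → Bool | Init z s} ⊆ closure M := by
    intro w hw
    rw [mem_closure_iff]
    intro U hU hwU
    obtain ⟨n, hn⟩ := exists_cyl hU hwU
    have hpre : s <+: seg w (max n s.length) := by
      have h1 : s = seg w s.length := by
        refine List.ext_get (by simp [seg]) fun k h1 h2 => ?_
        have h3 := hw ⟨k, h1⟩
        simp [seg] at h3 ⊢
        exact h3.symm
      have h2 := seg_prefix w (le_max_right n s.length)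
      rwa [← h1] at h2
    obtain ⟨v, hv, hvi⟩ := hcon _ hpre
    refine ⟨v, hn v fun k hk => ?_, hv⟩
    exact init_seg.1 hvi k (hk.trans_le (le_max_left _ _))
  have h1 : z ∈ interior (closure M) := mem_interior.2 ⟨_, hsub, isOpen_init s, hz⟩
  rw [hM] at h1
  exact h1

variable {X : Type}

open Classical in
/-- the point of `2 ^ ω` named by `y` -/
noncomputable def pt (y : ℕ → Set Unit) : ℕ → Bool := fun n => decide (() ∈ y n)

theorem pt_true {y : ℕ → Set Unit} {n : ℕ} : pt y n = true ↔ () ∈ y n := by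
  simp [pt]

theorem pt_false {y : ℕ → Set Unit} {n : ℕ} : pt y n = false ↔ () ∉ y n := by
  simp [pt]

theorem u_InitS {y : ℕ → Set Unit} {s : List Bool} : () ∈ InitS y s ↔ Init (pt y) s := by
  unfold InitS Init
  simp only [u_fall, u_fand, u_fnot, u_meets]
  refine forall_congr' fun n => ?_
  cases s.get n
  · rw [pt_false]
    simp
  · rw [pt_true]
    simp

theorem u_InCl {T : List Bool → Set Unit} {y : ℕ → Set Unit} :
    () ∈ InCl T y ↔ pt y ∈ Cl (val T) := by
  unfold InCl Cl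
  simp only [u_fall, u_fimp, u_meets, u_InitS]
  rfl

theorem u_NwdS {T : List Bool → Set Unit} : () ∈ NwdS T ↔ NwdCode (val T) := by
  unfold NwdS NwdCode
  simp only [u_fall, u_fex, u_fnot, u_meets, exists_prop]
  rfl

theorem u_Same {y z : ℕ → Set Unit} : () ∈ Same y z ↔ pt y = pt z := by
  unfold Same TH773.PSet.Sub
  simp only [u_fand, u_fall, u_fimp, u_meets]
  constructor
  · rintro ⟨h1, h2⟩
    ext1 n
    rw [Bool.eq_iff_iff, pt_true, pt_true]
    exact ⟨h1 n, h2 n⟩
  · intro h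
    refine ⟨fun n => ?_, fun n => ?_⟩
    · rw [← pt_true, ← pt_true, h]; exact id
    · rw [← pt_true, ← pt_true, h]; exact id

theorem u_LusinOn (hX : #X = ℵ₁) : () ∈ LusinOn Unit X ↔ ∃ L, IsLusin L := by
  unfold LusinOn
  simp only [u_fex, u_fand, u_fall, u_fnot, u_fimp, u_Same, u_NwdS, u_CtblS, u_InCl]
  constructor
  · rintro ⟨f, h1, h2⟩
    have hinj : Function.Injective fun x => pt (f x) := by
      intro x y hxy
      by_contra hne
      exact h1 x y hne hxy
    refine ⟨range fun x => pt (f x), fun hc => not_countable_univ hX ?_, fun M hM => ?_⟩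
    · rw [← image_univ] at hc
      exact countable_of_injective_of_countable_image hinj.injOn hc
    · obtain ⟨S, hS, hSc, hMS⟩ := isMeagre_iff_countable_union_isNowhereDense.1 hM
      have hsub : (range fun x => pt (f x)) ∩ M ⊆ ⋃ m ∈ S, (range fun x => pt (f x)) ∩ m := by
        rintro z ⟨hz, hzM⟩
        obtain ⟨m, hm, hzm⟩ := hMS hzM
        exact mem_biUnion hm ⟨hz, hzm⟩
      refine (hSc.biUnion fun m hm => ?_).mono hsub
      obtain ⟨T, hT, hmT⟩ := exists_code (hS m hm)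
      have h3 := h2 (nm T) hT
      refine (h3.image fun x => pt (f x)).mono ?_
      rintro _ ⟨⟨x, rfl⟩, hx⟩
      exact ⟨x, hmT hx, rfl⟩
  · rintro ⟨L, hL, hL'⟩
    have hle : #X ≤ #L := by
      rw [hX]
      rw [← Cardinal.le_aleph0_iff_set_countable, not_le] at hL
      rw [← Cardinal.succ_aleph0]
      exact Order.succ_le_of_lt hL
    obtain ⟨g⟩ := hle
    have hpt : ∀ x, pt (fun n => {_u : Unit | (g x : ℕ → Bool) n = true}) = g x := by
      intro x
      ext1 n
      rw [Bool.eq_iff_iff, pt_true]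
      exact Iff.rfl
    refine ⟨fun x n => {_u | (g x : ℕ → Bool) n = true}, fun x y hxy h => hxy ?_, fun T hT => ?_⟩
    · rw [hpt, hpt] at h
      exact g.injective (Subtype.ext h)
    · have h1 : IsMeagre (Cl (val T)) := (nwd_Cl hT).isMeagre
      have h2 := hL' _ h1
      refine countable_of_injective_of_countable_image
        (f := fun x => (g x : ℕ → Bool)) ?_ (h2.mono ?_)
      · intro x _ y _ hxy
        exact g.injective (Subtype.ext hxy)
      · rintro _ ⟨x, hx, rfl⟩
        refine ⟨(g x).2, ?_⟩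
        have h3 : pt (fun n => {_u : Unit | (g x : ℕ → Bool) n = true}) ∈ Cl (val T) := hx
        rwa [hpt] at h3

end Lusin

end Pool.Agent.Q300.Dow
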