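import Mathlib

/-!
# The space of a ladder system

`W` is a well-ordered set. A ladder system `d` assigns to each `a : W` a sequence `(d a).1` and a
sequence `(d a).2` of finite sets. If the data at `a` are valid, then the neighbourhoods of the
point `(a, n)` consist of `(a, n)` and of neighbourhoods of the points `(b, i)` with `i < n`,
`b ∈ (d a).2 k` for large `k` with `tau k = n`.
-/

set_option autoImplicit false

namespace Pool.Agent.Q300.Dow

variable {W : Type} [LinearOrder W]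

/-- the number `n` such that the `k`-th finite set of a ladder is used for the points of level
`n` -/
def tau (k : ℕ) : ℕ := (Nat.unpair k).1

theorem exists_tau (n j : ℕ) : ∃ k, j ≤ k ∧ tau k = n :=
  ⟨Nat.pair n j, Nat.right_le_pair n j, by simp [tau]⟩

/-- ladder data at a point -/
abbrev Lad (W : Type) : Type := (ℕ → W) × (ℕ → Finset W)

/-- the data of `d` at `a` are valid -/
def Valid (d : W → Lad W) (a : W) : Prop :=
  StrictMono (d a).1 ∧ (∀ k, (d a).1 k < a) ∧ (∀ b < a, ∃ k, b < (d a).1 k) ∧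
    ∀ k, ∀ b ∈ (d a).2 k, (d a).1 k < b ∧ b ≤ (d a).1 (k + 1)

/-- `Nb d a n η y`: the point `y` belongs to the neighbourhood of `(a, n)` determined by `η`. -/
inductive Nb (d : W → Lad W) : W → ℕ → W → W × ℕ → Prop
  | self (a : W) (n : ℕ) (η : W) : Nb d a n η (a, n)
  | step {a : W} {n : ℕ} {η : W} {y : W × ℕ} (k : ℕ) (b : W) (i : ℕ) (hv : Valid d a)
      (ht : tau k = n) (hη : η ≤ (d a).1 k) (hb : b ∈ (d a).2 k) (hi : i < n)
      (h : Nb d b i ((d a).1 k) y) : Nb d a n η y

/-- the `j`-th neighbourhood of the point `x` -/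
def Nj (d : W → Lad W) (x : W × ℕ) (j : ℕ) (y : W × ℕ) : Prop :=
  Nb d x.1 x.2 ((d x.1).1 j) y

theorem Nb.mono {d : W → Lad W} {a : W} {n : ℕ} {η η' : W} {y : W × ℕ} (hη : η ≤ η')
    (h : Nb d a n η' y) : Nb d a n η y := by
  cases h with
  | self => exact Nb.self _ _ _
  | step k b i hv ht h1 hb hi h =>
    exact Nb.step k b i hv ht (hη.trans h1) hb hi h

theorem Nb.range {d : W → Lad W} {a : W} {n : ℕ} {η : W} {y : W × ℕ}
    (h : Nb d a n η y) : y = (a, n) ∨ (η < y.1 ∧ y.1 < a ∧ y.2 < n) := by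
  induction h with
  | self a n η => exact Or.inl rfl
  | @step a n η y k b i hv ht hη hb hi h ih =>
    refine Or.inr ?_
    have h1 := hv.2.2.2 k b hb
    have h2 := hv.2.1 (k + 1)
    rcases ih with rfl | ih
    · exact ⟨lt_of_le_of_lt hη h1.1, lt_of_le_of_lt h1.2 h2, hi⟩
    · exact ⟨lt_of_le_of_lt hη ih.1, ih.2.1.trans (lt_of_le_of_lt h1.2 h2), ih.2.2.trans hi⟩

theorem Nb.le {d : W → Lad W} {a : W} {n : ℕ} {η : W} {y : W × ℕ}
    (h : Nb d a n η y) : y.1 ≤ a := by
  rcases h.range with rfl | h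
  · exact le_rfl
  · exact h.2.1.le

theorem Nb.invalid {d : W → Lad W} {a : W} {n : ℕ} {η : W} {y : W × ℕ} (hv : ¬ Valid d a)
    (h : Nb d a n η y) : y = (a, n) := by
  cases h with
  | self => rfl
  | step k b i hv' ht h1 hb hi h => exact absurd hv' hv

/-- the block which contains the points of the `k`-th stage -/
theorem Nb.block {d : W → Lad W} {a : W} {k : ℕ} {b : W} {i : ℕ} {y : W × ℕ} (hv : Valid d a)
    (hb : b ∈ (d a).2 k) (h : Nb d b i ((d a).1 k) y) :
    (d a).1 k < y.1 ∧ y.1 ≤ (d a).1 (k + 1) := by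
  have h1 := hv.2.2.2 k b hb
  rcases h.range with rfl | h
  · exact h1
  · exact ⟨h.1, h.2.1.le.trans h1.2⟩

theorem block_unique {c : ℕ → W} (hc : StrictMono c) {z : W} {k k' : ℕ}
    (h : c k < z ∧ z ≤ c (k + 1)) (h' : c k' < z ∧ z ≤ c (k' + 1)) : k = k' := by
  by_contra hne
  rcases lt_or_gt_of_ne hne with h1 | h1
  · have h2 : c (k + 1) ≤ c k' := hc.monotone h1
    exact absurd (lt_of_le_of_lt (h.2.trans h2) h'.1) (lt_irrefl _)
  · have h2 : c (k' + 1) ≤ c k := hc.monotone h1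
    exact absurd (lt_of_le_of_lt (h'.2.trans h2) h.1) (lt_irrefl _)

theorem valid_congr {d d' : W → Lad W} {a : W} (h : d a = d' a) : Valid d a ↔ Valid d' a := by
  unfold Valid
  rw [h]

theorem Nb.congr {d d' : W → Lad W} {a : W} {n : ℕ} {η : W} {y : W × ℕ}
    (h : Nb d a n η y) (hd : ∀ b ≤ a, d b = d' b) : Nb d' a n η y := by
  induction h with
  | self a n η => exact Nb.self _ _ _
  | @step a n η y k b i hv ht hη hb hi h ih =>
    have h1 := hv.2.2.2 k b hb
    have h2 := hv.2.1 (k + 1)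
    have h3 : b < a := lt_of_le_of_lt h1.2 h2
    have h4 := ih fun b' hb' => hd b' (hb'.trans h3.le)
    have e := hd a le_rfl
    exact Nb.step k b i ((valid_congr e).1 hv) ht (e ▸ hη) (e ▸ hb) hi (e ▸ h4)

theorem Nj.congr {d d' : W → Lad W} {x y : W × ℕ} {j : ℕ}
    (h : Nj d x j y) (hd : ∀ b ≤ x.1, d b = d' b) : Nj d' x j y := by
  have h1 := Nb.congr h hd
  unfold Nj
  rw [← hd x.1 le_rfl]
  exact h1

theorem Nb.base {d : W → Lad W} {a : W} {n : ℕ} {η : W} {y : W × ℕ}
    (h : Nb d a n η y) (hη : η < a) : ∃ ζ < y.1, ∀ z, Nb d y.1 y.2 ζ z → Nb d a n η z := by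
  induction h with
  | self a n η => exact ⟨η, hη, fun z hz => hz⟩
  | @step a n η y k b i hv ht hη' hb hi h ih =>
    obtain ⟨ζ, h1, h2⟩ := ih (hv.2.2.2 k b hb).1
    exact ⟨ζ, h1, fun z hz => Nb.step k b i hv ht hη' hb hi (h2 z hz)⟩

theorem exists_j {d : W → Lad W} (y : W × ℕ) {ζ : W} (hζ : ζ < y.1) :
    ∃ j, ∀ z, Nj d y j z → Nb d y.1 y.2 ζ z := by
  by_cases hv : Valid d y.1
  · obtain ⟨j, hj⟩ := hv.2.2.1 ζ hζ
    exact ⟨j, fun z hz => Nb.mono hj.le hz⟩
  · refine ⟨0, fun z hz => ?_⟩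
    rw [Nb.invalid hv hz]
    exact Nb.self _ _ _

/-! ### The basic properties of the neighbourhoods -/

theorem Nj.self (d : W → Lad W) (x : W × ℕ) (j : ℕ) : Nj d x j x := Nb.self _ _ _

theorem Nj.le {d : W → Lad W} {x y : W × ℕ} {j : ℕ} (h : Nj d x j y) : y.1 ≤ x.1 := Nb.le h

theorem Nj.anti {d : W → Lad W} {x y : W × ℕ} {j j' : ℕ} (hj : j ≤ j') (h : Nj d x j' y) :
    Nj d x j y := by
  by_cases hv : Valid d x.1
  · exact Nb.mono (hv.1.monotone hj) h
  · rw [Nb.invalid hv h]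
    exact Nj.self _ _ _

theorem Nj.base {d : W → Lad W} {x y : W × ℕ} {j : ℕ} (h : Nj d x j y) :
    ∃ k, ∀ z, Nj d y k z → Nj d x j z := by
  by_cases hv : Valid d x.1
  · obtain ⟨ζ, h1, h2⟩ := Nb.base h (hv.2.1 j)
    obtain ⟨k, hk⟩ := exists_j y h1
    exact ⟨k, fun z hz => h2 z (hk z hz)⟩
  · have h1 := Nb.invalid hv h
    have h2 : y = x := h1
    rw [h2]
    exact ⟨j, fun z hz => hz⟩

theorem Nj.t1 (d : W → Lad W) {x y : W × ℕ} (hxy : x ≠ y) : ∃ j, ¬ Nj d x j y := by
  by_cases hv : Valid d x.1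
  · by_cases hlt : y.1 < x.1
    · obtain ⟨j, hj⟩ := hv.2.2.1 y.1 hlt
      refine ⟨j, fun h => ?_⟩
      rcases Nb.range h with h1 | h1
      · exact hxy h1.symm
      · exact absurd (hj.trans h1.1) (lt_irrefl _)
    · refine ⟨0, fun h => ?_⟩
      rcases Nb.range h with h1 | h1
      · exact hxy h1.symm
      · exact hlt h1.2.1
  · exact ⟨0, fun h => hxy (Nb.invalid hv h).symm⟩

/-- finitely many requirements on the neighbourhoods can be met simultaneously -/
theorem exists_max {ι : Type*} (s : Finset ι) (Q : ι → ℕ → Prop)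
    (hQ : ∀ i ∈ s, ∀ j j', j ≤ j' → Q i j → Q i j') (h : ∀ i ∈ s, ∃ j, Q i j) :
    ∃ J, ∀ i ∈ s, Q i J := by
  classical
  induction s using Finset.induction_on with
  | empty => exact ⟨0, by simp⟩
  | insert a s _ ih =>
    obtain ⟨J, hJ⟩ := ih (fun i hi => hQ i (Finset.mem_insert_of_mem hi))
      (fun i hi => h i (Finset.mem_insert_of_mem hi))
    obtain ⟨j, hj⟩ := h a (Finset.mem_insert_self _ _)
    refine ⟨max J j, fun i hi => ?_⟩
    rcases Finset.mem_insert.1 hi with rfl | hi'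
    · exact hQ i hi _ _ (le_max_right _ _) hj
    · exact hQ i hi _ _ (le_max_left _ _) (hJ i hi')

theorem Nb.closed [WellFoundedLT W] (d : W → Lad W) (a : W) : ∀ (n : ℕ) (η : W), η < a →
    ∀ y, ¬ Nb d a n η y → ∃ j, ∀ z, Nj d y j z → ¬ Nb d a n η z := by
  induction a using WellFoundedLT.induction with
  | ind a ih =>
  intro n η hη y hy
  by_cases hvy : Valid d y.1
  swap
  · refine ⟨0, fun z hz => ?_⟩
    rw [show z = y from Nb.invalid hvy hz]
    exact hy
  -- it suffices to find `ζ`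
  suffices H : ∃ ζ < y.1, ∀ z, Nb d y.1 y.2 ζ z → ¬ Nb d a n η z by
    obtain ⟨ζ, h1, h2⟩ := H
    obtain ⟨j, hj⟩ := exists_j y h1
    exact ⟨j, fun z hz => h2 z (hj z hz)⟩
  have h0 : (d y.1).1 0 < y.1 := hvy.2.1 0
  rcases lt_trichotomy a y.1 with hay | hay | hay
  · refine ⟨a, hay, fun z hz hz' => ?_⟩
    rcases hz.range with h1 | h1
    · exact hy (show Nb d a n η y from (show z = y from h1) ▸ hz')
    · exact absurd (lt_of_lt_of_le h1.1 hz'.le) (lt_irrefl _)
  · -- the same first coordinate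
    refine ⟨η, hay ▸ hη, fun z hz hz' => ?_⟩
    obtain ⟨y1, m⟩ := y
    simp only at hay hz hvy
    subst hay
    cases hz with
    | self => exact hy hz'
    | step k b i hv ht h1 hb hi h =>
      have h2 := Nb.block hv hb h
      cases hz' with
      | self =>
        have h3 := hv.2.1 (k + 1)
        exact absurd (lt_of_le_of_lt h2.2 h3) (lt_irrefl _)
      | step k' b' i' hv' ht' h1' hb' hi' h' =>
        have h2' := Nb.block hv' hb' h'
        have h4 := block_unique hv.1 h2 h2'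
        subst h4
        apply hy
        rw [← ht', ht]
        exact Nb.self _ _ _
  · by_cases hva : Valid d a
    swap
    · refine ⟨_, h0, fun z hz hz' => ?_⟩
      have h1 := Nb.invalid hva hz'
      have h2 := hz.le
      rw [h1] at h2
      exact absurd (lt_of_le_of_lt h2 hay) (lt_irrefl _)
    -- the block of `y`
    by_cases hk : ∃ k, (d a).1 k < y.1 ∧ y.1 ≤ (d a).1 (k + 1)
    swap
    · -- below the first block
      have h1 : y.1 ≤ (d a).1 0 := by
        by_contra hlt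
        rw [not_le] at hlt
        apply hk
        have hex : ∃ k, y.1 ≤ (d a).1 k := by
          obtain ⟨k, hk'⟩ := hva.2.2.1 y.1 hay
          exact ⟨k, hk'.le⟩
        classical
        have hmin := Nat.find_spec hex
        have hpos : Nat.find hex ≠ 0 := by
          intro h
          rw [h] at hmin
          exact absurd (lt_of_le_of_lt hmin hlt) (lt_irrefl _)
        obtain ⟨m, hm⟩ := Nat.exists_eq_succ_of_ne_zero hpos
        have h2 := Nat.find_min hex (m := m) (by omega)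
        rw [hm] at hmin
        exact ⟨m, not_le.1 h2, hmin⟩
      refine ⟨_, h0, fun z hz hz' => ?_⟩
      have h2 : z.1 ≤ (d a).1 0 := hz.le.trans h1
      cases hz' with
      | self =>
        exact absurd (lt_of_le_of_lt h2 (hva.2.1 0)) (lt_irrefl _)
      | step k b i hv ht h3 hb hi h =>
        have h4 := Nb.block hv hb h
        have h5 : (d a).1 0 ≤ (d a).1 k := hv.1.monotone (Nat.zero_le k)
        exact absurd (lt_of_le_of_lt (h2.trans h5) h4.1) (lt_irrefl _)
    obtain ⟨k, hk1, hk2⟩ := hk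
    -- points of the neighbourhood in the block
    have hblock : ∀ z, (d a).1 k < z.1 → z.1 ≤ y.1 → Nb d a n η z →
        tau k = n ∧ η ≤ (d a).1 k ∧ ∃ b ∈ (d a).2 k, ∃ i < n, Nb d b i ((d a).1 k) z := by
      intro z hz1 hz2 hz'
      cases hz' with
      | self => exact absurd (lt_of_le_of_lt hz2 hay) (lt_irrefl _)
      | step k' b i hv ht h3 hb hi h =>
        have h4 := Nb.block hv hb h
        have h5 := block_unique hv.1 ⟨hz1, hz2.trans hk2⟩ h4
        subst h5
        exact ⟨ht, h3, b, hb, i, hi, h⟩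
    by_cases hc : tau k = n ∧ η ≤ (d a).1 k
    swap
    · refine ⟨(d a).1 k, hk1, fun z hz hz' => ?_⟩
      rcases hz.range with h1 | h1
      · exact hy (show Nb d a n η y from (show z = y from h1) ▸ hz')
      · have h2 := hblock z h1.1 h1.2.1.le hz'
        exact hc ⟨h2.1, h2.2.1⟩
    · have hfin : ∃ J, ∀ p ∈ ((d a).2 k) ×ˢ (Finset.range n), ∀ z, Nj d y J z →
          ¬ Nb d p.1 p.2 ((d a).1 k) z := by
        apply exists_max
        · intro p hp j j' hj h z hz
          exact h z (Nj.anti hj hz)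
        · intro p hp
          rw [Finset.mem_product, Finset.mem_range] at hp
          have h1 := hva.2.2.2 k p.1 hp.1
          refine ih p.1 (lt_of_le_of_lt h1.2 (hva.2.1 (k + 1))) p.2 _ h1.1 y fun h => hy ?_
          exact Nb.step k p.1 p.2 hva hc.1 hc.2 hp.1 hp.2 h
      obtain ⟨J, hJ⟩ := hfin
      refine ⟨max ((d a).1 k) ((d y.1).1 J), max_lt hk1 (hvy.2.1 J), fun z hz hz' => ?_⟩
      have hzJ : Nj d y J z := Nb.mono (le_max_right _ _) hz
      rcases hz.range with h1 | h1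
      · exact hy (show Nb d a n η y from (show z = y from h1) ▸ hz')
      · obtain ⟨-, -, b, hb, i, hi, h⟩ :=
          hblock z (lt_of_le_of_lt (le_max_left _ _) h1.1) h1.2.1.le hz'
        exact hJ (b, i) (by simp [hb, hi]) z hzJ h

theorem Nj.closed [WellFoundedLT W] {d : W → Lad W} {x y : W × ℕ} {j : ℕ} (h : ¬ Nj d x j y) :
    ∃ k, ∀ z, Nj d y k z → ¬ Nj d x j z := by
  by_cases hv : Valid d x.1
  · exact Nb.closed d x.1 x.2 _ (hv.2.1 j) y h
  · obtain ⟨k, hk⟩ := Nj.t1 d (x := y) (y := x) (fun e => h (e ▸ Nj.self _ _ _))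
    refine ⟨k, fun z hz hz' => ?_⟩
    have h1 : z = x := Nb.invalid hv hz'
    exact hk (h1 ▸ hz)

end Pool.Agent.Q300.Dow
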