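import Mathlib
import Pool.Agent.Q300.Dow.Space
import Pool.Agent.Q300.Dow.Exh

/-!
# The forcing which adds a generic ladder system, and the key lemma
-/

set_option autoImplicit false
set_option linter.unusedSectionVars false

namespace Pool.Agent.Q300.Dow

open Pool.Agent.TH773.PSet MeasureTheory Set

variable {W : Type} [LinearOrder W]

variable (W) in
/-- The conditions of the forcing which adds a ladder system: `d` describes the ladder system
below `g`. The values of `d` at the other points are irrelevant. -/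
structure LQ where
  g : W
  d : W → Lad W

instance : Preorder (LQ W) where
  le p q := q.g ≤ p.g ∧ ∀ a < q.g, p.d a = q.d a
  le_refl p := ⟨le_rfl, fun _ _ => rfl⟩
  le_trans p q r h h' := ⟨h'.1.trans h.1, fun a ha =>
    (h.2 a (lt_of_lt_of_le ha h'.1)).trans (h'.2 a ha)⟩

theorem LQ.le_def {p q : LQ W} : p ≤ q ↔ q.g ≤ p.g ∧ ∀ a < q.g, p.d a = q.d a := Iff.rfl

/-- every countable set is strictly bounded -/
def Bddd (W : Type) [LinearOrder W] : Prop := ∀ C : Set W, C.Countable → ∃ d, ∀ c ∈ C, c < d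

theorem qs_anti {Q : Type} [Preorder Q] {q : ℕ → Q} (h : ∀ n, q (n + 1) ≤ q n) {m n : ℕ}
    (hmn : m ≤ n) : q n ≤ q m := antitone_nat_of_succ_le h hmn

open Classical in
/-- the union of the data of a decreasing sequence of conditions -/
noncomputable def glue (q : ℕ → LQ W) (a : W) : Lad W :=
  if h : ∃ n, a < (q n).g then (q (Nat.find h)).d a else (fun _ => a, fun _ => ∅)

theorem glue_eq {q : ℕ → LQ W} (h : ∀ n, q (n + 1) ≤ q n) {n : ℕ} {a : W} (ha : a < (q n).g) :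
    glue q a = (q n).d a := by
  classical
  have hex : ∃ n, a < (q n).g := ⟨n, ha⟩
  unfold glue
  rw [dif_pos hex]
  have h1 := qs_anti h (Nat.find_min' hex ha)
  exact (h1.2 a (Nat.find_spec hex)).symm

theorem lq_sigma (hb : Bddd W) : SigmaClosed (LQ W) := by
  intro q hq
  obtain ⟨γ, hγ⟩ := hb (range fun n => (q n).g) (countable_range _)
  exact ⟨⟨γ, glue q⟩, fun n => ⟨(hγ _ ⟨n, rfl⟩).le, fun a ha => glue_eq hq ha⟩⟩

theorem exists_gt' (hb : Bddd W) (a : W) : ∃ b, a < b := by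
  obtain ⟨d, hd⟩ := hb {a} (countable_singleton a)
  exact ⟨d, hd a rfl⟩

variable {Ω : Type} [MeasurableSpace Ω] {μ : Measure Ω}

/-- extending the length of a condition -/
theorem exists_long (hb : Bddd W) (p : LQ W × Cond μ) (δ : W) : ∃ p' ≤ p, δ < p'.1.g := by
  obtain ⟨b, hb'⟩ := exists_gt' hb (max δ p.1.g)
  exact ⟨(⟨b, p.1.d⟩, p.2), ⟨⟨((le_max_right _ _).trans_lt hb').le, fun a _ => rfl⟩, le_rfl⟩,
    (le_max_left _ _).trans_lt hb'⟩

/-- a regular statement may be verified for long conditions only -/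
theorem reg_long (hb : Bddd W) {φ : Set (LQ W × Cond μ)} (hφ : Reg φ) (δ : W)
    {p : LQ W × Cond μ} (h : ∀ q ≤ p, δ < q.1.g → q ∈ φ) : p ∈ φ := by
  refine hφ.2 p fun q hq => ?_
  obtain ⟨q', h1, h2⟩ := exists_long hb q δ
  exact ⟨q', h1, h q' (h1.trans hq) h2⟩

/-- the name of the neighbourhood system -/
def NN (x : W × ℕ) (j : ℕ) (y : W × ℕ) : Set (LQ W × Cond μ) :=
  {p | x.1 < p.1.g ∧ Nj p.1.d x j y}

theorem Nj.le_cond {p q : LQ W} (hpq : p ≤ q) {x y : W × ℕ} (hx : x.1 < q.g) {j : ℕ} :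
    Nj p.d x j y ↔ Nj q.d x j y :=
  ⟨fun h => h.congr fun b hb => hpq.2 b (lt_of_le_of_lt hb hx),
    fun h => h.congr fun b hb => (hpq.2 b (lt_of_le_of_lt hb hx)).symm⟩

theorem mem_NN {p : LQ W × Cond μ} {x y : W × ℕ} {j : ℕ} (hx : x.1 < p.1.g) :
    p ∈ meets (NN (μ := μ) x j y) ↔ Nj p.1.d x j y := by
  constructor
  · intro h
    obtain ⟨r, hr, s, hs, hrs⟩ := h p le_rfl
    rw [← Nj.le_cond hr.1 hx, Nj.le_cond hrs.1 hs.1]
    exact hs.2
  · intro h q hq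
    refine ⟨q, le_rfl, q, ⟨lt_of_lt_of_le hx hq.1.1, ?_⟩, le_rfl⟩
    rw [Nj.le_cond hq.1 hx]
    exact h

/-! ### The key lemma -/

variable [IsFiniteMeasure μ]

/-- One stage of the construction for one name: a finite set which meets the set named by `A`
with high probability. -/
theorem stage {Q : Type} [Preorder Q] (hσ : SigmaClosed Q) (A : W × ℕ → Set (Q × Cond μ))
    (m : ℕ) (c : W) (q : Q) (r : Cond μ)
    (h : ∀ p ≤ (q, r), ∃ p' ≤ p, ∃ b, c < b ∧ p' ∈ meets (A (b, m))) {ε : ENNReal}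
    (hε : ε ≠ 0) :
    ∃ q' ≤ q, ∃ F : Finset W, (∀ b ∈ F, c < b) ∧ ∃ E : Set Ω, MeasurableSet E ∧
      μ (r.1 \ E) ≤ ε ∧ ∀ s : Cond μ, μ (s.1 ∩ E) ≠ 0 → ∃ s' ≤ s, ∃ b ∈ F,
        (q', s') ∈ meets (A (b, m)) := by
  classical
  obtain ⟨q', hq', S, hS, hr⟩ := exhaust (μ := μ) hσ
    (Φ := {p | ∃ b, c < b ∧ p ∈ meets (A (b, m))}) (by
      rintro p ⟨b, hcb, hp⟩ p' hp'
      exact ⟨b, hcb, (reg_meets _).1 _ hp _ hp'⟩) q r h
  -- the point which belongs to the `n`-th piece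
  have hex : ∀ n, ∃ b : Option W, (∀ b', b = some b' → c < b') ∧
      (S n ≠ ∅ → ∃ b', b = some b' ∧ ∀ s : Cond μ, s.1 = S n → (q', s) ∈ meets (A (b', m))) := by
    intro n
    rcases hS n with h1 | ⟨s, h1, h2, b, h3, h4⟩
    · exact ⟨none, by simp, fun h => absurd h1 h⟩
    · refine ⟨some b, by rintro b' ⟨⟩; exact h3, fun _ => ⟨b, rfl, fun s' hs' => ?_⟩⟩
      have : s' = s := Subtype.ext (hs'.trans h1.symm)
      rw [this]
      exact h4
  choose b hb hb' using hex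
  have hlim : Filter.Tendsto (fun N => μ (r.1 \ ⋃ n ∈ Finset.range N, S n)) Filter.atTop
      (nhds 0) := by
    have h1 : (⋂ N, (r.1 \ ⋃ n ∈ Finset.range N, S n)) = r.1 \ ⋃ n, S n := by
      ext x
      simp only [mem_iInter, mem_sdiff, mem_iUnion, Finset.mem_range, not_exists, exists_prop,
        not_and]
      constructor
      · intro h
        exact ⟨(h 0).1, fun n => (h (n + 1)).2 n (Nat.lt_succ_self n)⟩
      · rintro ⟨h1, h2⟩ N
        exact ⟨h1, fun n _ => h2 n⟩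
    have h0 : μ (⋂ N, (r.1 \ ⋃ n ∈ Finset.range N, S n)) = 0 := by rw [h1]; exact hr
    have h2 : Filter.Tendsto (fun N => μ (r.1 \ ⋃ n ∈ Finset.range N, S n)) Filter.atTop
        (nhds (μ (⋂ N, (r.1 \ ⋃ n ∈ Finset.range N, S n)))) := ?_
    · exact h2.trans (le_of_eq (congrArg nhds h0))
    refine tendsto_measure_iInter_atTop (fun N => ?_) ?_ ⟨0, measure_ne_top _ _⟩
    · exact (r.2.1.diff (Finset.measurableSet_biUnion _ fun n _ => hS.meas n)).nullMeasurableSet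
    · intro N N' h x hx
      refine ⟨hx.1, fun h' => hx.2 ?_⟩
      simp only [mem_iUnion, Finset.mem_range, exists_prop] at h' ⊢
      obtain ⟨n, hn, hn'⟩ := h'
      exact ⟨n, lt_of_lt_of_le hn h, hn'⟩
  obtain ⟨N, hN⟩ := (hlim.eventually (ge_mem_nhds (pos_iff_ne_zero.2 hε))).exists
  refine ⟨q', hq', ((Finset.range N).image b).eraseNone, ?_,
    ⋃ n ∈ Finset.range N, S n, Finset.measurableSet_biUnion _ fun n _ => hS.meas n, hN, ?_⟩
  · intro b' hb1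
    rw [Finset.mem_eraseNone, Finset.mem_image] at hb1
    obtain ⟨n, -, hn⟩ := hb1
    exact hb n b' hn
  · intro s hs
    obtain ⟨n, hn, hn'⟩ : ∃ n ∈ Finset.range N, μ (s.1 ∩ S n) ≠ 0 := by
      by_contra hcon
      push Not at hcon
      apply hs
      have h1 : s.1 ∩ (⋃ n ∈ Finset.range N, S n) = ⋃ n ∈ Finset.range N, s.1 ∩ S n := by
        rw [inter_iUnion₂]
      rw [h1]
      refine (measure_biUnion_null_iff (Finset.range N).countable_toSet).2 ?_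
      intro n hn
      exact hcon n (by simpa using hn)
    have hne : S n ≠ ∅ := by
      intro h
      rw [h, inter_empty, measure_empty] at hn'
      exact hn' rfl
    obtain ⟨b', hb1, hb2⟩ := hb' n hne
    rcases hS n with h1 | ⟨t, h1, -, -⟩
    · exact absurd h1 hne
    · refine ⟨restr s (S n) (hS.meas n) hn', restr_le s _ (hS.meas n) hn', b', ?_, ?_⟩
      · rw [Finset.mem_eraseNone, Finset.mem_image]
        exact ⟨n, hn, hb1⟩
      · exact (reg_meets _).1 _ (hb2 t h1) _ ⟨le_rfl, restr_le' (hS.meas n) hn' h1⟩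

theorem half_ne (n : ℕ) : ((2 : ENNReal)⁻¹) ^ n ≠ 0 := by simp

/-- The fusion: a condition which forces that the ladder at a new point `α` meets the sets named
by `A` and `C` in many points. -/
theorem key [WellFoundedLT W] (hb : Bddd W) (A C : W × ℕ → Set (LQ W × Cond μ)) (m m' : ℕ)
    (q : LQ W) (r : Cond μ)
    (hA : ∀ c, ∀ p ≤ (q, r), ∃ p' ≤ p, ∃ b, c < b ∧ p' ∈ meets (A (b, m)))
    (hC : ∀ c, ∀ p ≤ (q, r), ∃ p' ≤ p, ∃ b, c < b ∧ p' ∈ meets (C (b, m'))) :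
    ∃ q' ≤ q, ∃ α, α < q'.g ∧ ∀ n, m < n → m' < n → ∀ j, ∀ p ≤ (q', r),
      (∃ p' ≤ p, ∃ b, Nj q'.d (α, n) j (b, m) ∧ p' ∈ meets (A (b, m))) ∧
      (∃ p' ≤ p, ∃ b, Nj q'.d (α, n) j (b, m') ∧ p' ∈ meets (C (b, m'))) := by
  classical
  have hσ := lq_sigma hb
  have hstep : ∀ (k : ℕ) (q1 : LQ W), ∃ q2 : LQ W, ∃ F : Finset W, ∃ E E' : Set Ω,
      q1 ≤ q → (q2 ≤ q1 ∧ q1.g < q2.g ∧ (∀ b ∈ F, q1.g < b ∧ b ≤ q2.g) ∧
        (μ (r.1 \ E) ≤ (2 : ENNReal)⁻¹ ^ k ∧ ∀ s : Cond μ, μ (s.1 ∩ E) ≠ 0 → ∃ s' ≤ s, ∃ b ∈ F,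
          (q2, s') ∈ meets (A (b, m))) ∧
        (μ (r.1 \ E') ≤ (2 : ENNReal)⁻¹ ^ k ∧ ∀ s : Cond μ, μ (s.1 ∩ E') ≠ 0 → ∃ s' ≤ s,
          ∃ b ∈ F, (q2, s') ∈ meets (C (b, m')))) := by
    intro k q1
    by_cases hq1 : q1 ≤ q
    swap
    · exact ⟨q1, ∅, ∅, ∅, fun h => absurd h hq1⟩
    obtain ⟨q2, hq2, F, hF, E, -, hE1, hE2⟩ := stage hσ A m q1.g q1 r
      (fun p hp => hA q1.g p (hp.trans ⟨hq1, le_rfl⟩)) (half_ne k)
    obtain ⟨q3, hq3, F', hF', E', -, hE1', hE2'⟩ := stage hσ C m' q1.g q2 r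
      (fun p hp => hC q1.g p (hp.trans ⟨hq2.trans hq1, le_rfl⟩)) (half_ne k)
    obtain ⟨γ, hγ⟩ := hb ({q1.g, q3.g} ∪ (F ∪ F' : Finset W)) (by
      refine Set.Countable.union ?_ (Finset.countable_toSet _)
      exact (Set.toFinite _).countable)
    have hq4 : (⟨γ, q3.d⟩ : LQ W) ≤ q3 := ⟨(hγ _ (by simp)).le, fun _ _ => rfl⟩
    refine ⟨⟨γ, q3.d⟩, F ∪ F', E, E', fun _ => ⟨hq4.trans (hq3.trans hq2), hγ _ (by simp),
      ?_, ⟨hE1, ?_⟩, ⟨hE1', ?_⟩⟩⟩
    · intro b hbF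
      refine ⟨?_, (hγ b (Or.inr (by exact_mod_cast hbF))).le⟩
      rcases Finset.mem_union.1 hbF with h | h
      · exact hF b h
      · exact hF' b h
    · intro s hs
      obtain ⟨s', hs', b, hbF, h⟩ := hE2 s hs
      exact ⟨s', hs', b, Finset.mem_union_left _ hbF,
        (reg_meets _).1 _ h _ ⟨hq4.trans hq3, le_rfl⟩⟩
    · intro s hs
      obtain ⟨s', hs', b, hbF, h⟩ := hE2' s hs
      exact ⟨s', hs', b, Finset.mem_union_right _ hbF, (reg_meets _).1 _ h _ ⟨hq4, le_rfl⟩⟩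
  choose f F E E' hf using hstep
  let qs : ℕ → LQ W := fun n => Nat.rec q (fun n q => f n q) n
  have hqs : ∀ n, qs (n + 1) = f n (qs n) := fun n => rfl
  have hle : ∀ n, qs n ≤ q := by
    intro n
    induction n with
    | zero => exact le_rfl
    | succ n ih => rw [hqs]; exact (hf n (qs n) ih).1.trans ih
  have hanti : ∀ n, qs (n + 1) ≤ qs n := fun n => by rw [hqs]; exact (hf n (qs n) (hle n)).1
  have hlt : ∀ n, (qs n).g < (qs (n + 1)).g := fun n => by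
    rw [hqs]; exact (hf n (qs n) (hle n)).2.1
  have hmono : StrictMono fun n => (qs n).g := strictMono_nat_of_lt_succ hlt
  -- the supremum
  obtain ⟨γ0, hγ0⟩ := hb (range fun n => (qs n).g) (countable_range _)
  obtain ⟨α, hα, hαmin⟩ := WellFounded.has_min (wellFounded_lt (α := W))
    {a | ∀ n, (qs n).g < a} ⟨γ0, fun n => hγ0 _ ⟨n, rfl⟩⟩
  have hα' : ∀ n, (qs n).g < α := hα
  have hcof : ∀ b < α, ∃ k, b < (qs k).g := by
    intro b hbα
    by_contra hcon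
    push Not at hcon
    refine hαmin b (fun n => ?_) hbα
    exact lt_of_lt_of_le (hlt n) (hcon (n + 1))
  obtain ⟨γ1, hγ1⟩ := exists_gt' hb α
  let D : W → Lad W := fun a =>
    if a = α then (fun n => (qs n).g, fun n => F n (qs n)) else glue qs a
  have hDα : D α = (fun n => (qs n).g, fun n => F n (qs n)) := if_pos rfl
  have hle' : ∀ n, (⟨γ1, D⟩ : LQ W) ≤ qs n := by
    intro n
    refine ⟨((hα' n).trans hγ1).le, fun a ha => ?_⟩
    have hne : a ≠ α := (ha.trans (hα' n)).ne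
    show D a = _
    simp only [D, if_neg hne]
    exact glue_eq hanti ha
  have hvalid : Valid D α := by
    refine ⟨?_, ?_, ?_, ?_⟩
    · rw [hDα]; exact hmono
    · rw [hDα]; exact hα'
    · rw [hDα]; exact hcof
    · rw [hDα]
      intro k b hbF
      exact (hf k (qs k) (hle k)).2.2.1 b hbF
  refine ⟨⟨γ1, D⟩, hle' 0, α, hγ1, fun n hn hn' j p hp => ?_⟩
  obtain ⟨p1, s⟩ := p
  obtain ⟨hp1, hs⟩ := hp
  simp only at hp1 hs
  -- a late stage
  have hs0 : μ s.1 ≠ 0 := s.2.2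
  obtain ⟨K, hK⟩ : ∃ K : ℕ, ∀ k, K ≤ k → ((2 : ENNReal)⁻¹) ^ k < μ s.1 := by
    have h2 := ENNReal.tendsto_pow_atTop_nhds_zero_of_lt_one
      (r := (2 : ENNReal)⁻¹) (ENNReal.inv_lt_one.2 (by norm_num))
    exact Filter.eventually_atTop.1 (h2.eventually (gt_mem_nhds (pos_iff_ne_zero.2 hs0)))
  obtain ⟨k, hk, hkn⟩ := exists_tau n (max K j)
  have hhit : ∀ G : Set Ω, μ (r.1 \ G) ≤ (2 : ENNReal)⁻¹ ^ k → μ (s.1 ∩ G) ≠ 0 := by
    intro G hG h0
    have h1 : μ (s.1 \ G) ≤ (2 : ENNReal)⁻¹ ^ k := by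
      refine le_trans ?_ hG
      refine (measure_mono (t := (s.1 \ r.1) ∪ (r.1 \ G)) ?_).trans
        ((measure_union_le _ _).trans ?_)
      · intro x hx
        by_cases hx' : x ∈ r.1
        · exact Or.inr ⟨hx', hx.2⟩
        · exact Or.inl ⟨hx.1, hx'⟩
      · rw [show μ (s.1 \ r.1) = 0 from hs, zero_add]
    have h2 : μ s.1 ≤ μ (s.1 ∩ G) + μ (s.1 \ G) := by
      refine (measure_mono ?_).trans (measure_union_le _ _)
      intro x hx
      by_cases hx' : x ∈ G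
      · exact Or.inl ⟨hx, hx'⟩
      · exact Or.inr ⟨hx, hx'⟩
    rw [h0, zero_add] at h2
    exact absurd ((h2.trans h1).trans_lt (hK k ((le_max_left _ _).trans hk))) (lt_irrefl _)
  have hfk := hf k (qs k) (hle k)
  have hq2 : p1 ≤ f k (qs k) := hp1.trans (hle' (k + 1))
  have hNj : ∀ m b, m < n → b ∈ F k (qs k) → Nj D (α, n) j (b, m) := by
    intro m b hm hbF
    refine Nb.step k b m hvalid hkn ?_ ?_ hm (Nb.self _ _ _)
    · exact hvalid.1.monotone ((le_max_right _ _).trans hk)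
    · show b ∈ (D α).2 k
      rw [hDα]
      exact hbF
  refine ⟨?_, ?_⟩
  · obtain ⟨s', hs', b, hbF, h⟩ := hfk.2.2.2.1.2 s (hhit _ hfk.2.2.2.1.1)
    exact ⟨(p1, s'), ⟨le_rfl, hs'⟩, b, hNj m b hn hbF, (reg_meets _).1 _ h _ ⟨hq2, le_rfl⟩⟩
  · obtain ⟨s', hs', b, hbF, h⟩ := hfk.2.2.2.2.2 s (hhit _ hfk.2.2.2.2.1)
    exact ⟨(p1, s'), ⟨le_rfl, hs'⟩, b, hNj m' b hn' hbF, (reg_meets _).1 _ h _ ⟨hq2, le_rfl⟩⟩

end Pool.Agent.Q300.Dow
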