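import Mathlib
import Pool.Agent.Q300.Dow.Defs
import Pool.Agent.Q300.Dow.Poset

/-!
# The forcing relation for the sentences
-/

set_option autoImplicit false
set_option linter.unusedSectionVars false

namespace Pool.Agent.Q300.Dow

open Pool.Agent.TH773.PSet MeasureTheory Set

section Gen

variable {P : Type} [Preorder P] {X : Type}

theorem meets_reg {φ : Set P} (h : Reg φ) : meets φ = φ := by
  ext p
  constructor
  · intro hp
    refine h.2 p fun q hq => ?_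
    obtain ⟨r, hr, s, hs, hrs⟩ := hp q hq
    exact ⟨r, hr, h.1 _ hs _ hrs⟩
  · intro hp q hq
    exact ⟨q, le_rfl, q, h.1 _ hp _ hq, le_rfl⟩

theorem decide_cond (φ : Set P) (p : P) : ∃ q ≤ p, q ∈ φ ∨ q ∈ fnot φ := by
  by_cases h : ∃ q ≤ p, q ∈ φ
  · obtain ⟨q, h1, h2⟩ := h
    exact ⟨q, h1, Or.inl h2⟩
  · push Not at h
    exact ⟨p, le_rfl, Or.inr h⟩

theorem decide_fin {φ : ℕ → Set P} (hφ : ∀ m, Down (φ m)) (n : ℕ) (p : P) :
    ∃ q ≤ p, ∀ m < n, q ∈ φ m ∨ q ∈ fnot (φ m) := by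
  induction n with
  | zero => exact ⟨p, le_rfl, fun m hm => absurd hm (Nat.not_lt_zero m)⟩
  | succ n ih =>
    obtain ⟨q, hq, h⟩ := ih
    obtain ⟨r, hr, h'⟩ := decide_cond (φ n) q
    refine ⟨r, hr.trans hq, fun m hm => ?_⟩
    rcases Nat.lt_succ_iff_lt_or_eq.1 hm with h1 | rfl
    · rcases h m h1 with h2 | h2
      · exact Or.inl (hφ m _ h2 _ hr)
      · exact Or.inr (down_fnot _ _ h2 _ hr)
    · exact h'

theorem mem_of_fnot_fnot {φ : Set P} (hφ : Reg φ) {p : P} (h : p ∈ fnot (fnot φ)) : p ∈ φ := by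
  refine hφ.2 p fun q hq => ?_
  have h1 := h q hq
  simp only [fnot, Set.mem_ofPred_eq, not_forall, not_not] at h1
  obtain ⟨r, hr, h2⟩ := h1
  exact ⟨r, hr, h2⟩

theorem not_both {φ : Set P} {p : P} (h : p ∈ φ) (h' : p ∈ fnot φ) : False := h' p le_rfl h

theorem reg_SubS (A B : X → Set P) : Reg (SubS A B) := reg_fall fun _ => reg_fimp (reg_meets _).1

theorem reg_DisjS (A B : X → Set P) : Reg (DisjS A B) :=
  reg_fall fun _ => reg_fnot (down_fand (reg_meets _).1 (reg_meets _).1)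

theorem reg_CtblS (S : X → Set P) : Reg (CtblS S) := reg_fex _

theorem reg_OpenS (N : X → ℕ → X → Set P) (U : X → Set P) : Reg (OpenS N U) :=
  reg_fall fun _ => reg_fimp (reg_meets _).1

theorem reg_ClosedS (N : X → ℕ → X → Set P) (U : X → Set P) : Reg (ClosedS N U) :=
  reg_fall fun _ => reg_fimp (down_fnot _)

theorem mem_SubS {A B : X → Set P} {p : P} :
    p ∈ SubS A B ↔ ∀ x, ∀ q ≤ p, q ∈ meets (A x) → q ∈ meets (B x) :=
  forall_congr' fun _ => mem_fimp_reg (reg_meets _).1 (reg_meets _)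

theorem mem_DisjS {A B : X → Set P} {p : P} :
    p ∈ DisjS A B ↔ ∀ x, ∀ q ≤ p, q ∈ meets (A x) → q ∈ meets (B x) → False :=
  forall_congr' fun _ => ⟨fun h q hq h1 h2 => h q hq ⟨h1, h2⟩, fun h q hq h1 => h q hq h1.1 h1.2⟩

theorem mem_OpenS {N : X → ℕ → X → Set P} {U : X → Set P} {p : P} :
    p ∈ OpenS N U ↔ ∀ x, ∀ q ≤ p, q ∈ meets (U x) → q ∈ fex fun j => SubS (N x j) U :=
  forall_congr' fun _ => mem_fimp_reg (reg_meets _).1 (reg_fex _)

theorem mem_ClosedS {N : X → ℕ → X → Set P} {A : X → Set P} {p : P} :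
    p ∈ ClosedS N A ↔ ∀ x, ∀ q ≤ p, q ∈ fnot (meets (A x)) → q ∈ fex fun j => DisjS (N x j) A :=
  forall_congr' fun _ => mem_fimp_reg (down_fnot _) (reg_fex _)

end Gen

section Bounded

variable {P : Type} [Preorder P] {W : Type} [LinearOrder W]

/-- the set named by `A` is bounded by `δ` -/
def Bd (A : W × ℕ → Set P) (δ : W) : Set P :=
  fall fun x : W × ℕ => fall fun _ : δ < x.1 => fnot (meets (A x))

theorem reg_Bd (A : W × ℕ → Set P) (δ : W) : Reg (Bd A δ) :=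
  reg_fall fun _ => reg_fall fun _ => reg_fnot (reg_meets _).1

theorem Bd_mono (A : W × ℕ → Set P) {δ δ' : W} (h : δ ≤ δ') : Bd A δ ⊆ Bd A δ' :=
  fun _ hp x hx => hp x (lt_of_le_of_lt h hx)

/-- the set named by `A` is unbounded on level `m` -/
def Unb (A : W × ℕ → Set P) (m : ℕ) (p : P) : Prop :=
  ∀ c, ∀ q ≤ p, ∃ r ≤ q, ∃ b, c < b ∧ r ∈ meets (A (b, m))

theorem Unb.mono {A : W × ℕ → Set P} {m : ℕ} {p q : P} (h : Unb A m p) (hq : q ≤ p) :
    Unb A m q := fun c r hr => h c r (hr.trans hq)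

end Bounded

section Prod

variable {W : Type} [LinearOrder W] {Ω : Type} [MeasurableSpace Ω] {μ : Measure Ω}
  [IsFiniteMeasure μ]

theorem split (hb : Bddd W) (A : W × ℕ → Set (LQ W × Cond μ)) (p : LQ W × Cond μ) :
    (∃ q ≤ p, ∃ m, Unb A m q) ∨ (∃ q ≤ p, ∃ δ, q ∈ Bd A δ) := by
  by_contra hcon
  push Not at hcon
  obtain ⟨h1, h2⟩ := hcon
  obtain ⟨q', hq', γ, hγ⟩ := bound_seq (μ := μ) hb (lq_sigma hb)
    (ψ := fun m δ => fall fun b : W => fall fun _ : δ < b => fnot (meets (A (b, m))))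
    (fun m δ => reg_fall fun _ => reg_fall fun _ => reg_fnot (reg_meets _).1)
    (fun m δ δ' h p hp b hb' => hp b (lt_of_le_of_lt h hb')) (q := p.1) (r := p.2)
    (by
      intro m q hq
      have h3 := h1 q hq m
      unfold Unb at h3
      push Not at h3
      obtain ⟨c, q', hq', h4⟩ := h3
      exact ⟨q', hq', c, fun b hcb r hr => h4 r hr b hcb⟩)
  exact h2 (q', p.2) ⟨hq', le_rfl⟩ γ fun x hx => hγ x.2 x.1 hx

theorem ctbl_bdd (hb : Bddd W) {S : W × ℕ → Set (LQ W × Cond μ)} {p : LQ W × Cond μ}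
    (h : p ∈ CtblS S) : ∀ q ≤ p, ∃ q' ≤ q, ∃ δ, q' ∈ Bd S δ := by
  intro q hq
  obtain ⟨p1, hp1, f, hf1, hf2⟩ := mem_fex.1 h q hq
  obtain ⟨δ0, hδ0⟩ := hb ∅ countable_empty
  obtain ⟨q', hq', γ, hγ⟩ := bound_seq (μ := μ) hb (lq_sigma hb)
    (ψ := fun n δ => Bd (f n) δ) (fun n δ => reg_Bd _ _)
    (fun n δ δ' h => Bd_mono _ h) (q := p1.1) (r := p1.2)
    (by
      intro n q hq
      by_cases hex : ∃ r ≤ q, ∃ x, r ∈ meets (f n x)
      · obtain ⟨r, hr, x, hx⟩ := hex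
        refine ⟨r, hr, x.1, fun y hy s hs hs' => ?_⟩
        have hne : x ≠ y := fun e => absurd hy (e ▸ lt_irrefl _)
        exact hf1 n x y hne s (hs.trans (hr.trans hq)) ⟨(reg_meets _).1 _ hx _ hs, hs'⟩
      · push Not at hex
        exact ⟨q, le_rfl, δ0, fun y _ s hs hs' => hex s hs y hs'⟩)
  have hle : (q', p1.2) ≤ p1 := ⟨hq', le_rfl⟩
  refine ⟨(q', p1.2), hle.trans hp1, γ, fun x hx s hs hs' => ?_⟩
  have h1 := (mem_fimp.1 (hf2 x)) s (hs.trans hle) hs'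
  obtain ⟨t, ht, h2⟩ := h1
  obtain ⟨u, hu, n, h3⟩ := mem_fex.1 h2 t le_rfl
  exact hγ n x hx u (hu.trans (ht.trans hs)) h3

theorem not_ctbl (hb : Bddd W) (p : LQ W × Cond μ) :
    p ∈ fnot (CtblS fun _ : W × ℕ => (univ : Set (LQ W × Cond μ))) := by
  intro q hq h
  obtain ⟨q', hq', δ, hδ⟩ := ctbl_bdd hb h q le_rfl
  obtain ⟨γ, hγ⟩ := exists_gt' hb δ
  exact hδ (γ, 0) hγ q' le_rfl fun r hr => ⟨r, le_rfl, r, mem_univ _, le_rfl⟩

theorem nbSys (hb : Bddd W) (p : LQ W × Cond μ) : p ∈ NbSys (NN (W := W) (μ := μ)) := by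
  intro x j
  refine ⟨?_, ?_, fun y => ?_⟩
  · refine reg_long hb (reg_meets _) x.1 fun q hq hx => ?_
    rw [mem_NN hx]
    exact Nj.self _ _ _
  · refine reg_long hb (reg_SubS _ _) x.1 fun q hq hx => ?_
    rw [mem_SubS]
    intro y r hr h
    have hx' := lt_of_lt_of_le hx hr.1.1
    rw [mem_NN hx'] at h ⊢
    exact Nj.anti (Nat.le_succ j) h
  · refine reg_long hb (reg_fimp (reg_meets _).1) x.1 fun q hq hx => ?_
    rw [mem_fimp_reg (reg_meets _).1 (reg_fex _)]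
    intro r hr h
    have hx' := lt_of_lt_of_le hx hr.1.1
    rw [mem_NN hx'] at h
    obtain ⟨k, hk⟩ := Nj.base h
    refine mem_fex_of k fun s hs => ?_
    rw [mem_SubS]
    intro z t ht h1
    have hxs := lt_of_lt_of_le hx' (ht.trans hs).1.1
    have hy' : y.1 < t.1.g := lt_of_le_of_lt h.le hxs
    have hy : y.1 < r.1.g := lt_of_le_of_lt h.le hx'
    rw [mem_NN hy', Nj.le_cond (ht.trans hs).1 hy] at h1
    rw [mem_NN hxs, Nj.le_cond (ht.trans hs).1 hx']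
    exact hk z h1

theorem locCtbl (hc : ∀ a : W, (Iic a).Countable) (p : LQ W × Cond μ) :
    p ∈ LocCtblS (NN (W := W) (μ := μ)) := by
  intro x
  refine mem_fex_of 0 fun q _ => ?_
  have hcx : {y : W × ℕ | y.1 ≤ x.1}.Countable := by
    refine ((hc x.1).prod (countable_univ (α := ℕ))).mono ?_
    intro y hy
    exact ⟨hy, mem_univ _⟩
  obtain ⟨e, he⟩ := hcx.exists_eq_range ⟨x, le_rfl⟩
  refine mem_fex_of (fun n y => {_p | e n = y}) fun r _ => ⟨?_, ?_⟩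
  · intro n y z hne s _ h
    obtain ⟨_, _, _, h1, _⟩ := h.1 s le_rfl
    obtain ⟨_, _, _, h2, _⟩ := h.2 s le_rfl
    exact hne ((show e n = y from h1).symm.trans h2)
  · intro y
    rw [mem_fimp_reg (reg_meets _).1 (reg_fex _)]
    intro s _ h
    obtain ⟨_, _, t, ht, _⟩ := h s le_rfl
    have h1 : y ∈ {y : W × ℕ | y.1 ≤ x.1} := ht.2.le
    rw [he] at h1
    obtain ⟨n, hn⟩ := h1
    refine mem_fex_of n fun u _ => ?_
    exact fun v _ => ⟨v, le_rfl, v, hn, le_rfl⟩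

theorem t1S (hb : Bddd W) (p : LQ W × Cond μ) : p ∈ T1S (NN (W := W) (μ := μ)) := by
  intro x y hxy
  refine reg_long hb (reg_fex _) x.1 fun q _ hx => ?_
  obtain ⟨j, hj⟩ := Nj.t1 q.1.d hxy
  refine mem_fex_of j fun r hr s hs h => ?_
  rw [mem_NN (lt_of_lt_of_le hx (hs.trans hr).1.1), Nj.le_cond (hs.trans hr).1 hx] at h
  exact hj h

/-- the key lemma for closed sets -/
theorem key_closed [WellFoundedLT W] (hb : Bddd W) {A C : W × ℕ → Set (LQ W × Cond μ)}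
    {m m' : ℕ} {q : LQ W} {r : Cond μ}
    (hAc : (q, r) ∈ ClosedS NN A) (hCc : (q, r) ∈ ClosedS NN C)
    (hA : Unb A m (q, r)) (hC : Unb C m' (q, r)) (n0 : ℕ) :
    ∃ q' ≤ q, ∃ x : W × ℕ, n0 ≤ x.2 ∧ (q', r) ∈ meets (A x) ∧ (q', r) ∈ meets (C x) := by
  obtain ⟨q', hq', α, hα, h⟩ := key hb A C m m' q r hA hC
  refine ⟨q', hq', (α, max (max m m') n0 + 1), ?_, ?_, ?_⟩
  · exact (le_max_right _ _).trans (Nat.le_succ _)
  all_goals
    refine (reg_meets _).2 _ fun p1 hp1 => ?_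
    by_contra hcon
    push Not at hcon
  · obtain ⟨p3, hp3, j, h3⟩ := mem_fex.1
      ((mem_ClosedS.1 hAc) _ p1 (hp1.trans ⟨hq', le_rfl⟩) hcon) p1 le_rfl
    obtain ⟨⟨p4, hp4, b, h4, h5⟩, -⟩ := h (max (max m m') n0 + 1)
      (by omega) (by omega) j p3 (hp3.trans hp1)
    refine mem_DisjS.1 h3 (b, m) p4 hp4 ?_ h5
    have hle : p4.1 ≤ q' := (hp4.trans (hp3.trans hp1)).1
    rw [mem_NN (lt_of_lt_of_le hα hle.1), Nj.le_cond hle hα]
    exact h4
  · obtain ⟨p3, hp3, j, h3⟩ := mem_fex.1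
      ((mem_ClosedS.1 hCc) _ p1 (hp1.trans ⟨hq', le_rfl⟩) hcon) p1 le_rfl
    obtain ⟨-, ⟨p4, hp4, b, h4, h5⟩⟩ := h (max (max m m') n0 + 1)
      (by omega) (by omega) j p3 (hp3.trans hp1)
    refine mem_DisjS.1 h3 (b, m') p4 hp4 ?_ h5
    have hle : p4.1 ≤ q' := (hp4.trans (hp3.trans hp1)).1
    rw [mem_NN (lt_of_lt_of_le hα hle.1), Nj.le_cond hle hα]
    exact h4

theorem dowkerS [WellFoundedLT W] (hb : Bddd W) (p : LQ W × Cond μ) :
    p ∈ DowkerS (NN (W := W) (μ := μ)) := by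
  refine mem_fex_of (fun n x => {_p | n ≤ x.2}) fun p0 _ => ⟨fun n => ⟨?_, ?_⟩, ?_, ?_⟩
  · rw [mem_ClosedS]
    intro x q hq h
    have hx : ¬ n ≤ x.2 := by
      intro hx
      exact h q le_rfl fun r _ => ⟨r, le_rfl, r, hx, le_rfl⟩
    refine mem_fex_of 0 fun r _ => ?_
    rw [mem_DisjS]
    intro y s _ h1 h2
    obtain ⟨_, _, t, ht, _⟩ := h1 s le_rfl
    obtain ⟨_, _, _, hu, _⟩ := h2 s le_rfl
    have hu' : n ≤ y.2 := hu
    rcases Nb.range ht.2 with h3 | h3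
    · rw [h3] at hu'
      exact hx hu'
    · have := h3.2.2
      omega
  · rw [mem_SubS]
    intro x q _ h r hr
    obtain ⟨_, _, _, hu, _⟩ := h r hr
    exact ⟨r, le_rfl, r, (Nat.le_succ n).trans hu, le_rfl⟩
  · intro x q _ h
    obtain ⟨_, _, _, hu, _⟩ := h (x.2 + 1) q le_rfl
    exact absurd (show x.2 + 1 ≤ x.2 from hu) (by omega)
  · intro U
    rw [mem_fimp]
    intro q _ hU
    by_contra hcon
    push Not at hcon
    -- the complements
    have hKreg : ∀ n x, Reg (fnot (meets (U n x))) := fun n x => reg_fnot (reg_meets _).1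
    have hbd : ∀ n, ∀ p ≤ (q.1, q.2), ∃ p' ≤ p, ∃ δ, p' ∈ Bd (fun x => fnot (meets (U n x))) δ := by
      intro n p1 hp1
      rcases split hb (fun x => fnot (meets (U n x))) p1 with ⟨p2, hp2, m, hm⟩ | h
      · exfalso
        have hcl : (p2.1, p2.2) ∈ ClosedS NN (fun x => fnot (meets (U n x))) := by
          rw [mem_ClosedS]
          intro x s hs h1
          rw [meets_reg (hKreg n x)] at h1
          have h2 := mem_of_fnot_fnot (reg_meets _) h1
          refine mem_fex.2 fun s' hs' => ?_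
          obtain ⟨t, ht, j, h3⟩ := mem_fex.1
            ((mem_OpenS.1 (hU n).1) x s ((hs.trans hp2).trans hp1) h2) s' hs'
          refine ⟨t, ht, j, mem_DisjS.2 fun y u hu h4 h5 => ?_⟩
          rw [meets_reg (hKreg n y)] at h5
          exact not_both (mem_SubS.1 h3 y u hu h4) h5
        obtain ⟨q', hq', x, hx, h1, -⟩ := key_closed hb hcl hcl hm hm n
        rw [meets_reg (hKreg n x)] at h1
        refine not_both (mem_SubS.1 (hU n).2 x (q', p2.2) ?_ ?_) h1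
        · exact (show (q', p2.2) ≤ p2 from ⟨hq', le_rfl⟩).trans (hp2.trans hp1)
        · exact fun r _ => ⟨r, le_rfl, r, hx, le_rfl⟩
      · exact h
    obtain ⟨q', hq', γ, hγ⟩ := bound_seq (μ := μ) hb (lq_sigma hb)
      (ψ := fun n δ => Bd (fun x => fnot (meets (U n x))) δ) (fun n δ => reg_Bd _ _)
      (fun n δ δ' h => Bd_mono _ h) hbd
    obtain ⟨γ', hγ'⟩ := exists_gt' hb γ
    refine hcon (q', q.2) ⟨hq', le_rfl⟩ (mem_fex_of (γ', 0) fun s hs n => ?_)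
    have h1 := hγ n (γ', 0) hγ'
    rw [meets_reg (hKreg n _)] at h1
    exact (reg_meets _).1 _ (mem_of_fnot_fnot (reg_meets _) h1) _ hs

end Prod

end Pool.Agent.Q300.Dow
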