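import Mathlib
import Pool.Agent.TH773.PSet.Prod
import Pool.Agent.Q300.Dow.Sent

/-!
# There is no Lusin set in the extension
-/

set_option autoImplicit false
set_option linter.unusedSectionVars false

namespace Pool.Agent.Q300.Dow

open Pool.Agent.TH773.PSet MeasureTheory Set Cardinal

section Measure

variable {I : Type}

theorem coord_true (z : I × ℕ) : coinProduct I {x | x z = true} = 2⁻¹ := by
  classical
  have hs : {x : I × ℕ → Bool | x z = true} = Set.pi ({z} : Finset (I × ℕ)) fun _ => {true} := by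
    ext x
    simp
  rw [hs, coinProduct, Measure.infinitePi_pi _ fun _ _ => measurableSet_singleton true,
    Finset.prod_const, coin_true]
  simp

theorem coord_meas (z : I × ℕ) (c : Bool) : MeasurableSet {x : I × ℕ → Bool | x z = c} := by
  have h : Measurable fun x : I × ℕ → Bool => x z := measurable_pi_apply z
  exact h (measurableSet_singleton c)

theorem coord_compl (z : I × ℕ) :
    {x : I × ℕ → Bool | x z = true}ᶜ = {x | x z = false} := by
  ext x
  simp

theorem coord_false (z : I × ℕ) : coinProduct I {x | x z = false} = 2⁻¹ := by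
  rw [← coord_compl, prob_compl_eq_one_sub (coord_meas z true), coord_true]
  exact ENNReal.one_sub_inv_two

/-- the event that the first `l` of the sets `b j` agree with the coordinates `(i, t j)` -/
def agr (b : ℕ → Set (I × ℕ → Bool)) (i : I) (t : ℕ → ℕ) (l : ℕ) : Set (I × ℕ → Bool) :=
  {x | ∀ j < l, (x ∈ b j ↔ x (i, t j) = true)}

theorem agr_succ (b : ℕ → Set (I × ℕ → Bool)) (i : I) (t : ℕ → ℕ) (l : ℕ) :
    agr b i t (l + 1) = (agr b i t l ∩ b l ∩ {x | x (i, t l) = true}) ∪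
      (agr b i t l ∩ (b l)ᶜ ∩ {x | x (i, t l) = false}) := by
  ext x
  simp only [agr, mem_ofPred_eq, mem_union, mem_inter_iff, mem_compl_iff]
  constructor
  · intro h
    have h1 := h l (Nat.lt_succ_self l)
    have h2 : ∀ j < l, (x ∈ b j ↔ x (i, t j) = true) := fun j hj => h j (Nat.lt_succ_of_lt hj)
    by_cases h3 : x ∈ b l
    · exact Or.inl ⟨⟨h2, h3⟩, h1.1 h3⟩
    · refine Or.inr ⟨⟨h2, h3⟩, ?_⟩
      rw [h1] at h3
      simpa using h3
  · rintro (⟨⟨h1, h2⟩, h3⟩ | ⟨⟨h1, h2⟩, h3⟩) j hj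
    · rcases Nat.lt_succ_iff_lt_or_eq.1 hj with h | rfl
      · exact h1 j h
      · exact ⟨fun _ => h3, fun _ => h2⟩
    · rcases Nat.lt_succ_iff_lt_or_eq.1 hj with h | rfl
      · exact h1 j h
      · exact ⟨fun h => absurd h h2, fun h => absurd (h.symm.trans h3) (by simp)⟩

theorem dep_agr {b : ℕ → Set (I × ℕ → Bool)} {i : I} {t : ℕ → ℕ}
    (hb : ∀ j, Dep {z : I × ℕ | z.1 ≠ i} (b j)) (l : ℕ) :
    Dep {z : I × ℕ | z.1 ≠ i ∨ ∃ j < l, z.2 = t j} (agr b i t l) := by
  induction l with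
  | zero =>
    have : agr b i t 0 = Set.univ := by
      ext x
      simp [agr]
    rw [this]
    exact dep_univ _
  | succ l ih =>
    have h1 : Dep {z : I × ℕ | z.1 ≠ i ∨ ∃ j < l + 1, z.2 = t j} (agr b i t l) := by
      refine ih.mono ?_
      rintro z (h | ⟨j, hj, h⟩)
      · exact Or.inl h
      · exact Or.inr ⟨j, Nat.lt_succ_of_lt hj, h⟩
    have h2 : Dep {z : I × ℕ | z.1 ≠ i ∨ ∃ j < l + 1, z.2 = t j} (b l) :=
      (hb l).mono fun z hz => Or.inl hz
    have h3 : Dep {z : I × ℕ | z.1 ≠ i ∨ ∃ j < l + 1, z.2 = t j} {x | x (i, t l) = true} :=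
      dep_coord (Or.inr ⟨l, Nat.lt_succ_self l, rfl⟩)
    rw [agr_succ, ← coord_compl]
    have h4 := (h1.inter h2).inter h3
    have h5 := (h1.inter h2.compl).inter h3.compl
    rw [union_eq_iUnion]
    refine Dep.iUnion fun c => ?_
    cases c
    · exact h5
    · exact h4

theorem measure_agr {b : ℕ → Set (I × ℕ → Bool)} {i : I} {t : ℕ → ℕ}
    (ht : Function.Injective t) (hb : ∀ j, Dep {z : I × ℕ | z.1 ≠ i} (b j)) (l : ℕ) :
    coinProduct I (agr b i t l) = (2 : ENNReal)⁻¹ ^ l := by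
  induction l with
  | zero =>
    have : agr b i t 0 = Set.univ := by
      ext x
      simp [agr]
    rw [this, measure_univ, pow_zero]
  | succ l ih =>
    have hd := dep_agr (t := t) hb l
    have hbl : Dep {z : I × ℕ | z.1 ≠ i ∨ ∃ j < l, z.2 = t j} (b l) :=
      (hb l).mono fun z hz => Or.inl hz
    have hdisj : Disjoint {z : I × ℕ | z.1 ≠ i ∨ ∃ j < l, z.2 = t j} {(i, t l)} := by
      rw [Set.disjoint_singleton_right]
      rintro (h | ⟨j, hj, h⟩)
      · exact h rfl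
      · exact absurd (ht h) hj.ne'
    have h3 : Dep ({(i, t l)} : Set (I × ℕ)) {x : I × ℕ → Bool | x (i, t l) = true} :=
      dep_coord (mem_singleton _)
    rw [agr_succ, measure_union, dep_indep hdisj (hd.inter hbl) h3, coord_true,
      ← coord_compl (i, t l), dep_indep hdisj (hd.inter hbl.compl) h3.compl, coord_compl,
      coord_false, ← add_mul, ← sdiff_eq, measure_inter_add_sdiff₀ _ (hbl.meas.nullMeasurableSet),
      ih, pow_succ]
    · rw [Set.disjoint_left]
      rintro x ⟨⟨-, h1⟩, -⟩ ⟨⟨-, h2⟩, -⟩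
      exact h2 h1
    · exact ((hd.meas.inter hbl.meas.compl).inter (coord_meas _ _))

/-- almost surely the random real with index `i` differs from the random real `b` on almost all
blocks -/
theorem ae_diff {b : ℕ → Set (I × ℕ → Bool)} {i : I}
    (hb : ∀ j, Dep {z : I × ℕ | z.1 ≠ i} (b j)) :
    ∀ᵐ x ∂(coinProduct I), ∃ m, ∀ k, m ≤ k → ∃ j < k,
      ¬ (x ∈ b (Nat.pair k j) ↔ x (i, Nat.pair k j) = true) := by
  have h1 : ∀ k, coinProduct I (agr (fun j => b (Nat.pair k j)) i (Nat.pair k) k) =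
      (2 : ENNReal)⁻¹ ^ k := fun k =>
    measure_agr (fun a c h => (Nat.pair_eq_pair.1 h).2) (fun j => hb _) k
  have h2 : ∑' k, coinProduct I (agr (fun j => b (Nat.pair k j)) i (Nat.pair k) k) ≠ ⊤ := by
    simp only [h1]
    rw [ENNReal.tsum_geometric]
    simp
  have h3 := measure_limsup_atTop_eq_zero h2
  rw [measure_eq_zero_iff_ae_notMem] at h3
  filter_upwards [h3] with x hx
  rw [Filter.mem_limsup_iff_frequently_mem, Filter.not_frequently] at hx
  obtain ⟨m, hm⟩ := Filter.eventually_atTop.1 hx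
  refine ⟨m, fun k hk => ?_⟩
  have h4 := hm k hk
  simp only [agr, mem_ofPred_eq, not_forall] at h4
  obtain ⟨j, hj, h5⟩ := h4
  exact ⟨j, hj, h5⟩

theorem exists_pattern {s : Random I} (i : I) (M : ℕ) :
    ∃ v : ℕ → Bool, coinProduct I (s.1 ∩ {x | ∀ a < M, x (i, a) = v a}) ≠ 0 := by
  induction M with
  | zero =>
    refine ⟨fun _ => true, ?_⟩
    simpa using s.2.2
  | succ M ih =>
    obtain ⟨v, hv⟩ := ih
    by_contra hcon
    push Not at hcon
    apply hv
    refine measure_mono_null ?_ (measure_union_null (hcon (Function.update v M true))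
      (hcon (Function.update v M false)))
    rintro x ⟨h1, h2⟩
    have h3 : ∀ c, x (i, M) = c → x ∈ s.1 ∩ {x | ∀ a < M + 1, x (i, a) = Function.update v M c a} := by
      intro c hc
      refine ⟨h1, fun a ha => ?_⟩
      rcases Nat.lt_succ_iff_lt_or_eq.1 ha with h | rfl
      · rw [Function.update_of_ne h.ne]
        exact h2 a h
      · rw [Function.update_self]
        exact hc
    cases hc : x (i, M)
    · exact Or.inr (h3 _ hc)
    · exact Or.inl (h3 _ hc)

end Measure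

section Names

variable {Q : Type} [Preorder Q] {Ω : Type} [MeasurableSpace Ω] {μ : Measure Ω}

theorem reg_snd {E : Set Ω} (hE : MeasurableSet E) :
    Reg {p : Q × Cond μ | p.2 ∈ AE μ E} := by
  constructor
  · intro p hp q hq
    exact down_AE _ _ hp _ hq.2
  · intro p hp
    show μ (p.2.1 \ E) = 0
    by_contra hne
    have hne' : μ (p.2.1 ∩ Eᶜ) ≠ 0 := hne
    obtain ⟨r, hr, h⟩ := hp (p.1, restr p.2 Eᶜ hE.compl hne')
      ⟨le_rfl, restr_le p.2 Eᶜ hE.compl hne'⟩
    exact not_AE_compl (p := r.2) h (down_AE _ _ (restr_mem p.2 Eᶜ hE.compl hne') _ hr.2)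

theorem Dcd.ae {q q' : Q} {φ : Set (Q × Cond μ)} {B : Set Ω} (hB : MeasurableSet B)
    (h : Dcd q φ B) (hφ : Down φ) (hq : q' ≤ q) {s : Cond μ} (hs : (q', s) ∈ φ) :
    s ∈ AE μ B := by
  show μ (s.1 \ B) = 0
  by_contra hne
  have hne' : μ (s.1 ∩ Bᶜ) ≠ 0 := hne
  have h1 := (h (restr s Bᶜ hB.compl hne')).2 (restr_mem s Bᶜ hB.compl hne')
  exact h1 (q', restr s Bᶜ hB.compl hne') ⟨hq, le_rfl⟩
    (hφ _ hs _ ⟨le_rfl, restr_le s Bᶜ hB.compl hne'⟩)

theorem Dcd.ae_not {q q' : Q} {φ : Set (Q × Cond μ)} {B : Set Ω} (hB : MeasurableSet B)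
    (h : Dcd q φ B) (hφ : Down φ) (hq : q' ≤ q) {s : Cond μ} (hs : (q', s) ∈ fnot φ) :
    s ∈ AE μ Bᶜ := by
  show μ (s.1 \ Bᶜ) = 0
  by_contra hne
  have hne' : μ (s.1 ∩ B) ≠ 0 := by rwa [sdiff_compl] at hne
  have h1 := (h (restr s B hB hne')).1 (restr_mem s B hB hne')
  exact hs (q', restr s B hB hne') ⟨le_rfl, restr_le s B hB hne'⟩ (hφ _ h1 _ ⟨hq, le_rfl⟩)

end Names

section NoLusin

variable {W : Type} [LinearOrder W] {I : Type}

/-- the tree of the sequences which differ from the random real with index `i` on all blocks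
which have a number `≥ m` -/
def tset (i : I) (m : ℕ) (s : List Bool) : Set (I × ℕ → Bool) :=
  {x | ∀ k, m ≤ k → (∀ j < k, Nat.pair k j < s.length) → ∃ j < k,
    s.getD (Nat.pair k j) false ≠ x (i, Nat.pair k j)}

theorem tset_meas (i : I) (m : ℕ) (s : List Bool) : MeasurableSet (tset i m s) := by
  have : tset i m s = ⋂ k : ℕ, ⋂ (_ : m ≤ k), ⋂ (_ : ∀ j < k, Nat.pair k j < s.length),
      ⋃ j : ℕ, ⋃ (_ : j < k), {x : I × ℕ → Bool | x (i, Nat.pair k j) = s.getD (Nat.pair k j) false}ᶜ := by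
    ext x
    simp only [tset, mem_ofPred_eq, mem_iInter, mem_iUnion, mem_compl_iff, exists_prop]
    refine forall_congr' fun k => forall_congr' fun _ => forall_congr' fun _ =>
      exists_congr fun j => and_congr_right fun _ => ?_
    exact ne_comm
  rw [this]
  exact MeasurableSet.iInter fun k => MeasurableSet.iInter fun _ => MeasurableSet.iInter fun _ =>
    MeasurableSet.iUnion fun j => MeasurableSet.iUnion fun _ => (coord_meas _ _).compl

/-- the name of this tree -/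
def TT (Q : Type) [Preorder Q] (i : I) (m : ℕ) (s : List Bool) : Set (Q × Random I) :=
  {p | p.2 ∈ AE (coinProduct I) (tset i m s)}

theorem meets_TT {Q : Type} [Preorder Q] (i : I) (m : ℕ) (s : List Bool) :
    meets (TT Q i m s) = TT Q i m s := meets_reg (reg_snd (tset_meas i m s))

theorem nwd_TT {Q : Type} [Preorder Q] (i : I) (m : ℕ) (p : Q × Random I) :
    p ∈ NwdS (TT Q i m) := by
  intro s
  refine mem_fex.2 fun q _ => ?_
  let k := max m s.length
  obtain ⟨L, hL⟩ : ∃ L, ∀ j < k, Nat.pair k j < L := by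
    refine ⟨((Finset.range k).sup fun j => Nat.pair k j) + 1, fun j hj => ?_⟩
    exact Nat.lt_succ_of_le (Finset.le_sup (f := fun j => Nat.pair k j) (Finset.mem_range.2 hj))
  obtain ⟨v, hv⟩ := exists_pattern (s := q.2) i L
  have hm : MeasurableSet {x : I × ℕ → Bool | ∀ a < L, x (i, a) = v a} := by
    have : {x : I × ℕ → Bool | ∀ a < L, x (i, a) = v a} =
        ⋂ a : ℕ, ⋂ (_ : a < L), {x | x (i, a) = v a} := by
      ext x
      simp
    rw [this]
    exact MeasurableSet.iInter fun a => MeasurableSet.iInter fun _ => coord_meas _ _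
  let t : List Bool := s ++ (List.range L).map fun a => v (s.length + a)
  have htl : L ≤ t.length := by simp [t]
  have htv : ∀ a, s.length ≤ a → a < L → t.getD a false = v a := by
    intro a h1 h2
    simp only [t]
    rw [List.getD_append_right _ _ _ _ h1]
    rw [List.getD_eq_getElem _ _ (by simp; omega)]
    simp
    congr 1
    omega
  refine ⟨(q.1, restr q.2 _ hm hv), ⟨le_rfl, restr_le q.2 _ hm hv⟩, t, ?_⟩
  refine mem_fex_of (List.prefix_append _ _) fun r hr u hu h => ?_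
  rw [meets_TT] at h
  have h1 : u.2 ∈ AE (coinProduct I) (tset i m t) := h
  have h2 : u.2 ∈ AE (coinProduct I) {x : I × ℕ → Bool | ∀ a < L, x (i, a) = v a} :=
    down_AE _ _ (restr_mem q.2 _ hm hv) _ (hu.trans hr).2
  rw [mem_AE_iff] at h1 h2
  refine u.2.2.2 (measure_eq_zero_iff_ae_notMem.2 ?_)
  filter_upwards [h1, h2] with x h3 h4 h5
  obtain ⟨j, hj, h6⟩ := h3 h5 k (le_max_left _ _) fun j hj => (hL j hj).trans_le htl
  have h7 : s.length ≤ Nat.pair k j := (le_max_right _ _).trans (Nat.left_le_pair k j)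
  rw [htv _ h7 (hL j hj)] at h6
  exact h6 (h4 h5 _ (hL j hj)).symm

theorem reg_InitS {P : Type} [Preorder P] (y : ℕ → Set P) (s : List Bool) : Down (InitS y s) :=
  down_fall fun _ => down_fand (down_fall fun _ => (reg_meets _).1)
    (down_fall fun _ => down_fnot _)

theorem reg_InCl {P : Type} [Preorder P] (T : List Bool → Set P) (y : ℕ → Set P) :
    Reg (InCl T y) := reg_fall fun s => reg_fimp (reg_InitS y s)

theorem inCl_TT {Q : Type} [Preorder Q] (i : I) (m : ℕ) (y : ℕ → Set (Q × Random I)) {q : Q}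
    {r : Random I} {b : ℕ → Set (I × ℕ → Bool)} (hb : ∀ n, MeasurableSet (b n))
    (hd : ∀ n, Dcd q (meets (y n)) (b n))
    (hr : r ∈ AE (coinProduct I) {x | ∀ k, m ≤ k → ∃ j < k,
      ¬ (x ∈ b (Nat.pair k j) ↔ x (i, Nat.pair k j) = true)}) :
    (q, r) ∈ InCl (TT Q i m) y := by
  intro s
  rw [mem_fimp]
  rintro ⟨q1, r1⟩ ⟨hq1, hr1⟩ hs
  refine ⟨(q1, r1), le_rfl, ?_⟩
  rw [meets_TT]
  show r1 ∈ AE (coinProduct I) (tset i m s)
  simp only at hq1 hr1
  have h1 : ∀ n : Fin s.length, ∀ᵐ x ∂(coinProduct I), x ∈ r1.1 →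
      (x ∈ b n ↔ s.getD n false = true) := by
    intro n
    have hget : s.getD n false = s.get n := by
      rw [List.getD_eq_getElem _ _ n.2]
      rfl
    rw [hget]
    cases hc : s.get n
    · have h2 := Dcd.ae_not (hb n) (hd n) (reg_meets _).1 hq1 ((hs n).2 hc)
      rw [mem_AE_iff] at h2
      filter_upwards [h2] with x h3 h4
      simpa using h3 h4
    · have h2 := Dcd.ae (hb n) (hd n) (reg_meets _).1 hq1 ((hs n).1 hc)
      rw [mem_AE_iff] at h2
      filter_upwards [h2] with x h3 h4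
      simpa using h3 h4
  have h2 := ae_all_iff.2 h1
  have h3 := down_AE _ _ hr _ hr1
  rw [mem_AE_iff] at h3 ⊢
  filter_upwards [h2, h3] with x h4 h5 h6 k hk hlen
  obtain ⟨j, hj, h7⟩ := h5 h6 k hk
  refine ⟨j, hj, fun h8 => h7 ?_⟩
  rw [h4 ⟨Nat.pair k j, hlen j hj⟩ h6, ← h8]

theorem exists_index {Z : Type} [Infinite Z] (T : Z → Set (Set Z × ℕ))
    (hT : ∀ z, (T z).Countable) : ∃ i : Set Z, ∀ z, ∀ t ∈ T z, t.1 ≠ i := by
  by_contra hcon
  push Not at hcon
  have h1 : (⋃ z, Prod.fst '' T z) = (Set.univ : Set (Set Z)) := by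
    ext i
    simp only [mem_iUnion, mem_univ, iff_true]
    obtain ⟨z, t, ht, hti⟩ := hcon i
    exact ⟨z, t, ht, hti⟩
  have h2 : #(⋃ z, Prod.fst '' T z : Set (Set Z)) ≤ #Z := by
    refine (mk_iUnion_le_sum_mk).trans ?_
    refine (sum_le_sum _ (fun _ => ℵ₀) fun z => ?_).trans ?_
    · exact ((hT z).image _).le_aleph0
    · rw [sum_const]
      simp only [lift_id]
      rw [mul_aleph0_eq (aleph0_le_mk Z)]
  rw [h1, Cardinal.mk_univ, mk_set] at h2
  exact absurd h2 (not_le.2 (cantor _))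

variable [WellFoundedLT W]

theorem no_lusin (hb : Bddd W)
    (p : LQ W × Random (Set (LQ W × (W × ℕ) × ℕ))) :
    p ∈ fnot (LusinOn (LQ W × Random (Set (LQ W × (W × ℕ) × ℕ))) (W × ℕ)) := by
  classical
  intro p0 _ h
  obtain ⟨p1, hp1, f, -, hf⟩ := mem_fex.1 h p0 le_rfl
  obtain ⟨w0, hw0⟩ := hb ∅ countable_empty
  haveI : Nonempty W := ⟨w0⟩
  haveI : Nonempty (LQ W) := ⟨⟨w0, fun _ => (fun _ => w0, fun _ => ∅)⟩⟩
  -- measurable sets which represent the values of `f`
  have hex : ∀ z : LQ W × (W × ℕ) × ℕ, ∃ b : Set (Set (LQ W × (W × ℕ) × ℕ) × ℕ → Bool),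
      MeasurableSet b ∧ ((∃ B, MeasurableSet B ∧ Dcd z.1 (meets (f z.2.1 z.2.2)) B) →
        Dcd z.1 (meets (f z.2.1 z.2.2)) b) := by
    intro z
    by_cases hz : ∃ B, MeasurableSet B ∧ Dcd z.1 (meets (f z.2.1 z.2.2)) B
    · obtain ⟨B, h1, h2⟩ := hz
      exact ⟨B, h1, fun _ => h2⟩
    · exact ⟨∅, MeasurableSet.empty, fun h => absurd h hz⟩
  choose b hbm hb' using hex
  choose T hT hT' using fun z => exists_countable (hbm z)
  obtain ⟨i, hi⟩ := exists_index T hT
  -- all preimages are bounded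
  have hbd : ∀ m, ∀ p ≤ (p1.1, p1.2), ∃ p' ≤ p, ∃ δ,
      p' ∈ Bd (fun x => InCl (TT (LQ W) i m) (f x)) δ := by
    intro m p hp
    have h1 := (mem_fimp_reg (reg_fall fun _ => reg_fex _ : Reg (NwdS (TT (LQ W) i m))).1
      (reg_CtblS _)).1 (hf (TT (LQ W) i m)) p hp (nwd_TT i m p)
    exact ctbl_bdd hb h1 p le_rfl
  obtain ⟨q', hq', γ, hγ⟩ := bound_seq hb (lq_sigma hb)
    (ψ := fun m δ => Bd (fun x => InCl (TT (LQ W) i m) (f x)) δ) (fun n δ => reg_Bd _ _)
    (fun n δ δ' h => Bd_mono _ h) hbd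
  obtain ⟨γ', hγ'⟩ := exists_gt' hb γ
  obtain ⟨q2, hq2, B, hB⟩ := decide_seq (μ := coinProduct (Set (LQ W × (W × ℕ) × ℕ)))
    (lq_sigma hb) (φ := fun n => meets (f (γ', 0) n)) (fun n => reg_meets _) q'
  have hd : ∀ n, Dcd q2 (meets (f (γ', 0) n)) (b (q2, (γ', 0), n)) := fun n =>
    hb' (q2, (γ', 0), n) ⟨B n, (hB n).1, (hB n).2⟩
  have hae := ae_diff (i := i) (b := fun n => b (q2, (γ', 0), n)) fun n =>
    (hT' (q2, (γ', 0), n)).mono fun t ht => hi _ t ht
  let E : ℕ → Set (Set (LQ W × (W × ℕ) × ℕ) × ℕ → Bool) := fun m =>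
    {x | ∀ k, m ≤ k → ∃ j < k,
      ¬ (x ∈ b (q2, (γ', 0), Nat.pair k j) ↔ x (i, Nat.pair k j) = true)}
  have hEm : ∀ m, MeasurableSet (E m) := by
    intro m
    have : E m = ⋂ k : ℕ, ⋂ (_ : m ≤ k), ⋃ j : ℕ, ⋃ (_ : j < k),
        ((b (q2, (γ', 0), Nat.pair k j) ∩ {x | x (i, Nat.pair k j) = true}) ∪
          ((b (q2, (γ', 0), Nat.pair k j))ᶜ ∩ {x | x (i, Nat.pair k j) = true}ᶜ))ᶜ := by
      ext x
      simp only [E, mem_ofPred_eq, mem_iInter, mem_iUnion, exists_prop, mem_compl_iff, mem_union,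
        mem_inter_iff]
      refine forall_congr' fun k => forall_congr' fun _ => exists_congr fun j =>
        and_congr_right fun _ => ?_
      tauto
    rw [this]
    refine MeasurableSet.iInter fun k => MeasurableSet.iInter fun _ => MeasurableSet.iUnion fun j =>
      MeasurableSet.iUnion fun _ => ?_
    exact (((hbm _).inter (coord_meas _ _)).union ((hbm _).compl.inter (coord_meas _ _).compl)).compl
  obtain ⟨m, hm⟩ := exists_hit (S := E) (s := p1.2) (by
    refine measure_mono_null (t := (⋃ n, E n)ᶜ) (fun x hx => hx.2) ?_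
    refine measure_eq_zero_iff_ae_notMem.2 ?_
    filter_upwards [hae] with x hx hx'
    exact hx' (mem_iUnion.2 hx))
  have h1 : (q2, restr p1.2 (E m) (hEm m) hm) ∈ InCl (TT (LQ W) i m) (f (γ', 0)) :=
    inCl_TT i m _ (fun n => hbm _) hd (restr_mem p1.2 _ (hEm m) hm)
  have h2 := hγ m (γ', 0) hγ' (q2, restr p1.2 (E m) (hEm m) hm)
    ⟨hq2, restr_le p1.2 _ (hEm m) hm⟩
  rw [meets_reg (reg_InCl _ _)] at h2
  exact h2 h1

end NoLusin

end Pool.Agent.Q300.Dow
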