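import Mathlib
import Pool.Agent.Q300.Dow.Sent

/-!
# The generic space is normal
-/

set_option autoImplicit false
set_option linter.unusedSectionVars false

namespace Pool.Agent.Q300.Dow

open Pool.Agent.TH773.PSet MeasureTheory Set

variable {W : Type} [LinearOrder W] {Ω : Type} [MeasurableSpace Ω] {μ : Measure Ω}
  [IsFiniteMeasure μ]

/-- the `n`-th set of a countable family of basic clopen sets -/
def BB (d : W → Lad W) (e : ℕ → (W × ℕ) × ℕ) (n : ℕ) (y : W × ℕ) : Prop :=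
  Nj d (e n).1 (e n).2 y

/-- the `n`-th basic set is disjoint from the set named by `A` -/
def SS {P : Type} [Preorder P] (d : W → Lad W) (e : ℕ → (W × ℕ) × ℕ) (A : W × ℕ → Set P) (n : ℕ) :
    Set P := fall fun y => fall fun _ : BB d e n y => fnot (meets (A y))

theorem reg_SS {P : Type} [Preorder P] (d : W → Lad W) (e : ℕ → (W × ℕ) × ℕ)
    (A : W × ℕ → Set P) (n : ℕ) : Reg (SS d e A n) :=
  reg_fall fun _ => reg_fall fun _ => reg_fnot (reg_meets _).1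

/-- the union of the sets `B n ∖ ⋃ m < n + k, B m`, where `n` ranges over the indices with
`B n` disjoint from `A` and `m` over the ones with `B m` disjoint from `C` -/
def GG {P : Type} [Preorder P] (d : W → Lad W) (e : ℕ → (W × ℕ) × ℕ) (A C : W × ℕ → Set P)
    (k : ℕ) (x : W × ℕ) : Set P :=
  fex fun n => fex fun _ : BB d e n x => fand (SS d e A n)
    (fall fun m => fall fun _ : m < n + k => fall fun _ : BB d e m x => fnot (SS d e C m))

theorem down_GG_aux {P : Type} [Preorder P] (d : W → Lad W) (e : ℕ → (W × ℕ) × ℕ)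
    (A C : W × ℕ → Set P) (k : ℕ) (x : W × ℕ) (n : ℕ) : Down (fand (SS d e A n)
    (fall fun m => fall fun _ : m < n + k => fall fun _ : BB d e m x => fnot (SS d e C m))) :=
  down_fand (reg_SS _ _ _ _).1 (down_fall fun _ => down_fall fun _ => down_fall fun _ =>
    down_fnot _)

theorem reg_GG {P : Type} [Preorder P] (d : W → Lad W) (e : ℕ → (W × ℕ) × ℕ)
    (A C : W × ℕ → Set P) (k : ℕ) (x : W × ℕ) : Reg (GG d e A C k x) := reg_fex _

theorem mem_GG {P : Type} [Preorder P] {d : W → Lad W} {e : ℕ → (W × ℕ) × ℕ}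
    {A C : W × ℕ → Set P} {k : ℕ} {x : W × ℕ} {p : P} (h : p ∈ GG d e A C k x) :
    ∃ q ≤ p, ∃ n, BB d e n x ∧ q ∈ SS d e A n ∧
      ∀ m < n + k, BB d e m x → q ∈ fnot (SS d e C m) := by
  obtain ⟨q, hq, n, h1⟩ := mem_fex.1 h p le_rfl
  obtain ⟨r, hr, hB, h2⟩ := mem_fex.1 h1 q le_rfl
  exact ⟨r, hr.trans hq, n, hB, h2.1, fun m hm hB' => h2.2 m hm hB'⟩

theorem mem_GG_of {P : Type} [Preorder P] {d : W → Lad W} {e : ℕ → (W × ℕ) × ℕ}
    {A C : W × ℕ → Set P} {k : ℕ} {x : W × ℕ} {p : P} (n : ℕ) (hB : BB d e n x)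
    (h : p ∈ SS d e A n) (h' : ∀ m < n + k, BB d e m x → p ∈ fnot (SS d e C m)) :
    p ∈ GG d e A C k x := by
  refine mem_fex_of n fun q hq => mem_fex_of hB fun r hr => ?_
  exact down_GG_aux d e A C k x n p ⟨h, fun m hm hB' => h' m hm hB'⟩ r (hr.trans hq)

theorem GG_open [WellFoundedLT W] {δ : W} {p : LQ W × Cond μ} (hδ : δ < p.1.g)
    {e : ℕ → (W × ℕ) × ℕ} (he : ∀ n, (e n).1.1 ≤ δ) (A C : W × ℕ → Set (LQ W × Cond μ)) (k : ℕ)
    (x : W × ℕ) {q : LQ W × Cond μ} (hq : q ≤ p) (hx : q ∈ GG p.1.d e A C k x) :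
    ∃ r ≤ q, ∃ j, ∀ s ≤ r, ∀ y, s ∈ meets (NN x j y) → s ∈ GG p.1.d e A C k y := by
  classical
  obtain ⟨r, hr, n, hB, h1, h2⟩ := mem_GG hx
  obtain ⟨r', hr', h3⟩ := decide_fin (φ := fun m => SS p.1.d e C m)
    (fun m => (reg_SS _ _ _ _).1) (n + k) r
  -- a neighbourhood
  have hxδ : x.1 ≤ δ := hB.le.trans (he n)
  obtain ⟨j1, hj1⟩ := Nj.base hB
  obtain ⟨j2, hj2⟩ := exists_max (Finset.range (n + k))
    (fun m j => r' ∈ SS p.1.d e C m → ∀ y, Nj p.1.d x j y → ¬ BB p.1.d e m y)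
    (by
      intro m _ j j' hj h hm y hy
      exact h hm y (Nj.anti hj hy))
    (by
      intro m hm
      by_cases hm' : r' ∈ SS p.1.d e C m
      · have hnB : ¬ BB p.1.d e m x := fun hB' =>
          not_both hm' (down_fnot _ _ (h2 m (Finset.mem_range.1 hm) hB') _ hr')
        obtain ⟨j, hj⟩ := Nj.closed hnB
        exact ⟨j, fun _ => hj⟩
      · exact ⟨0, fun h => absurd h hm'⟩)
  refine ⟨r', hr'.trans hr, max j1 j2, fun s hs y hy => ?_⟩
  have hle : s ≤ p := hs.trans (hr'.trans (hr.trans hq))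
  have hxp : x.1 < p.1.g := lt_of_le_of_lt hxδ hδ
  rw [mem_NN (lt_of_lt_of_le hxp hle.1.1), Nj.le_cond hle.1 hxp] at hy
  refine mem_GG_of n (hj1 y (Nj.anti (le_max_left _ _) hy))
    ((reg_SS _ _ _ _).1 _ h1 _ (hs.trans hr')) fun m hm hB' => ?_
  rcases h3 m hm with h4 | h4
  · exact absurd hB' (hj2 m (Finset.mem_range.2 hm) h4 y (Nj.anti (le_max_right _ _) hy))
  · exact down_fnot _ _ h4 _ hs

theorem GG_cover {δ : W} {p : LQ W × Cond μ} (hδ : δ < p.1.g)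
    {e : ℕ → (W × ℕ) × ℕ} (he : ∀ x : W × ℕ, x.1 ≤ δ → ∀ j, ∃ n, e n = (x, j))
    {A C : W × ℕ → Set (LQ W × Cond μ)} (k : ℕ) {x : W × ℕ} (hxδ : x.1 ≤ δ)
    {q : LQ W × Cond μ} (hq : q ≤ p) (hC : q ∈ ClosedS NN C)
    (hdisj : q ∈ DisjS A C) (hx : q ∈ meets (A x)) : q ∈ GG p.1.d e C A k x := by
  refine (reg_GG _ _ _ _ _ _).2 _ fun q' hq' => ?_
  have hxC : q' ∈ fnot (meets (C x)) := fun r hr h =>
    mem_DisjS.1 hdisj x r (hr.trans hq') ((reg_meets _).1 _ hx _ (hr.trans hq')) h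
  obtain ⟨r, hr, j, h1⟩ := mem_fex.1 (mem_ClosedS.1 hC x q' hq' hxC) q' le_rfl
  obtain ⟨n, hn⟩ := he x hxδ j
  have hxp : x.1 < p.1.g := lt_of_le_of_lt hxδ hδ
  refine ⟨r, hr, mem_GG_of n ?_ ?_ ?_⟩
  · unfold BB
    rw [hn]
    exact Nj.self _ _ _
  · intro y hy s hs h
    unfold BB at hy
    rw [hn] at hy
    have hle : s ≤ p := hs.trans (hr.trans (hq'.trans hq))
    refine mem_DisjS.1 h1 y s hs ?_ h
    rw [mem_NN (lt_of_lt_of_le hxp hle.1.1), Nj.le_cond hle.1 hxp]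
    exact hy
  · intro m _ hB s hs h
    exact not_both ((reg_meets _).1 _ hx _ (hs.trans (hr.trans hq'))) (h x hB)

/-- the statement that `A` and `C` can be separated -/
def SepS {P X : Type} [Preorder P] (N : X → ℕ → X → Set P) (A C : X → Set P) : Set P :=
  fex fun U : X → Set P => fex fun V : X → Set P =>
    fand (OpenS N U) (fand (OpenS N V) (fand (SubS A U) (fand (SubS C V) (DisjS U V))))

theorem separate [WellFoundedLT W] (hb : Bddd W) (hc : ∀ a : W, (Iic a).Countable)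
    {A C : W × ℕ → Set (LQ W × Cond μ)} {p : LQ W × Cond μ}
    (hA : p ∈ ClosedS NN A) (hC : p ∈ ClosedS NN C) (hdisj : p ∈ DisjS A C) {δ : W}
    (hbd : p ∈ Bd A δ) : ∃ q ≤ p, q ∈ SepS NN A C ∧ q ∈ SepS NN C A := by
  classical
  obtain ⟨p0, hp0, hδ⟩ := exists_long hb p δ
  have hcx : {z : (W × ℕ) × ℕ | z.1.1 ≤ δ}.Countable := by
    refine (((hc δ).prod (countable_univ (α := ℕ))).prod (countable_univ (α := ℕ))).mono ?_
    intro z hz
    exact ⟨⟨hz, mem_univ _⟩, mem_univ _⟩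
  obtain ⟨e, he⟩ := hcx.exists_eq_range ⟨((δ, 0), 0), le_rfl⟩
  have he1 : ∀ n, (e n).1.1 ≤ δ := fun n => by
    have : e n ∈ {z : (W × ℕ) × ℕ | z.1.1 ≤ δ} := by rw [he]; exact mem_range_self n
    exact this
  have he2 : ∀ x : W × ℕ, x.1 ≤ δ → ∀ j, ∃ n, e n = (x, j) := fun x hx j => by
    have : (x, j) ∈ {z : (W × ℕ) × ℕ | z.1.1 ≤ δ} := hx
    rw [he] at this
    exact this
  have hA0 := (reg_ClosedS _ _).1 _ hA _ hp0
  have hC0 := (reg_ClosedS _ _).1 _ hC _ hp0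
  have hd0 := (reg_DisjS _ _).1 _ hdisj _ hp0
  have hb0 := (reg_Bd _ _).1 _ hbd _ hp0
  have hd0' : p0 ∈ DisjS C A := mem_DisjS.2 fun x q hq h1 h2 => mem_DisjS.1 hd0 x q hq h2 h1
  let U : W × ℕ → Set (LQ W × Cond μ) := GG p0.1.d e C A 0
  let V : W × ℕ → Set (LQ W × Cond μ) := fun x => {p | δ < x.1 ∨ p ∈ GG p0.1.d e A C 1 x}
  have hU : ∀ x, meets (U x) = U x := fun x => meets_reg (reg_GG _ _ _ _ _ _)
  have hV : ∀ x, meets (V x) = V x := fun x => meets_reg (by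
    constructor
    · rintro q (h | h) r hr
      · exact Or.inl h
      · exact Or.inr ((reg_GG _ _ _ _ _ _).1 _ h _ hr)
    · intro q h
      by_cases hx : δ < x.1
      · exact Or.inl hx
      · refine Or.inr ((reg_GG _ _ _ _ _ _).2 _ fun r hr => ?_)
        obtain ⟨s, hs, h1 | h1⟩ := h r hr
        · exact absurd h1 hx
        · exact ⟨s, hs, h1⟩)
  have hUo : p0 ∈ OpenS NN U := by
    rw [mem_OpenS]
    intro x q hq hx
    rw [hU] at hx
    refine mem_fex.2 fun q' hq' => ?_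
    obtain ⟨r, hr, j, h⟩ := GG_open hδ he1 C A 0 x (hq'.trans hq) ((reg_GG _ _ _ _ _ _).1 _ hx _ hq')
    refine ⟨r, hr, j, mem_SubS.2 fun y s hs hy => ?_⟩
    rw [hU]
    exact h s hs y hy
  have hVo : p0 ∈ OpenS NN V := by
    rw [mem_OpenS]
    intro x q hq hx
    rw [hV] at hx
    refine mem_fex.2 fun q' hq' => ?_
    by_cases hxδ : δ < x.1
    · obtain ⟨r, hr, hxr⟩ := exists_long hb q' x.1
      obtain ⟨j, hj⟩ := exists_j (d := r.1.d) x hxδ
      refine ⟨r, hr, j, mem_SubS.2 fun y s hs hy => ?_⟩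
      rw [mem_NN (lt_of_lt_of_le hxr hs.1.1), Nj.le_cond hs.1 hxr] at hy
      rw [hV]
      refine Or.inl ?_
      rcases Nb.range (hj y hy) with h1 | h1
      · rw [h1]; exact hxδ
      · exact h1.1
    · rcases hx with h1 | hx
      · exact absurd h1 hxδ
      obtain ⟨r, hr, j, h⟩ := GG_open hδ he1 A C 1 x (hq'.trans hq)
        ((reg_GG _ _ _ _ _ _).1 _ hx _ hq')
      refine ⟨r, hr, j, mem_SubS.2 fun y s hs hy => ?_⟩
      rw [hV]
      exact Or.inr (h s hs y hy)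
  have hAU : p0 ∈ SubS A U := by
    rw [mem_SubS]
    intro x q hq hx
    rw [hU]
    have hxδ : x.1 ≤ δ := by
      by_contra hlt
      rw [not_le] at hlt
      exact hb0 x hlt q hq hx
    exact GG_cover hδ he2 0 hxδ hq ((reg_ClosedS _ _).1 _ hC0 _ hq) ((reg_DisjS _ _).1 _ hd0 _ hq)
      hx
  have hCV : p0 ∈ SubS C V := by
    rw [mem_SubS]
    intro x q hq hx
    rw [hV]
    by_cases hxδ : δ < x.1
    · exact Or.inl hxδ
    · exact Or.inr (GG_cover hδ he2 1 (not_lt.1 hxδ) hq ((reg_ClosedS _ _).1 _ hA0 _ hq)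
        ((reg_DisjS _ _).1 _ hd0' _ hq) hx)
  have hUV : p0 ∈ DisjS U V := by
    rw [mem_DisjS]
    intro x q hq h1 h2
    rw [hU] at h1
    rw [hV] at h2
    obtain ⟨r, hr, n, hB, h3, h4⟩ := mem_GG h1
    rcases h2 with h2 | h2
    · exact absurd (lt_of_lt_of_le h2 (hB.le.trans (he1 n))) (lt_irrefl _)
    obtain ⟨s, hs, n', hB', h3', h4'⟩ := mem_GG ((reg_GG _ _ _ _ _ _).1 _ h2 _ hr)
    rcases lt_or_ge n' n with h | h
    · exact not_both h3' (down_fnot _ _ (h4 n' h hB') _ hs)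
    · exact not_both ((reg_SS _ _ _ _).1 _ h3 _ hs) (h4' n (by omega) hB)
  have hVU : p0 ∈ DisjS V U := mem_DisjS.2 fun x q hq h1 h2 => mem_DisjS.1 hUV x q hq h2 h1
  refine ⟨p0, hp0, mem_fex_of U fun q hq => mem_fex_of V fun r hr => ?_,
    mem_fex_of V fun q hq => mem_fex_of U fun r hr => ?_⟩
  · have h := hr.trans hq
    exact ⟨(reg_OpenS _ _).1 _ hUo _ h, (reg_OpenS _ _).1 _ hVo _ h, (reg_SubS _ _).1 _ hAU _ h,
      (reg_SubS _ _).1 _ hCV _ h, (reg_DisjS _ _).1 _ hUV _ h⟩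
  · have h := hr.trans hq
    exact ⟨(reg_OpenS _ _).1 _ hVo _ h, (reg_OpenS _ _).1 _ hUo _ h, (reg_SubS _ _).1 _ hCV _ h,
      (reg_SubS _ _).1 _ hAU _ h, (reg_DisjS _ _).1 _ hVU _ h⟩

theorem normalS [WellFoundedLT W] (hb : Bddd W) (hc : ∀ a : W, (Iic a).Countable)
    (p : LQ W × Cond μ) : p ∈ NormalS (NN (W := W) (μ := μ)) := by
  intro A C
  rw [mem_fimp]
  rintro q - ⟨hA, hC, hdisj⟩
  have hdown : ∀ q' ≤ q, q' ∈ ClosedS NN A ∧ q' ∈ ClosedS NN C ∧ q' ∈ DisjS A C := fun q' hq' =>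
    ⟨(reg_ClosedS _ _).1 _ hA _ hq', (reg_ClosedS _ _).1 _ hC _ hq',
      (reg_DisjS _ _).1 _ hdisj _ hq'⟩
  rcases split hb A q with ⟨q1, hq1, m, hm⟩ | ⟨q1, hq1, δ, hδ⟩
  · rcases split hb C q1 with ⟨q2, hq2, m', hm'⟩ | ⟨q2, hq2, δ, hδ⟩
    · exfalso
      obtain ⟨h1, h2, h3⟩ := hdown q2 (hq2.trans hq1)
      obtain ⟨q', hq', x, -, h4, h5⟩ := key_closed (q := q2.1) (r := q2.2) hb h1 h2
        (hm.mono hq2) hm' 0
      exact mem_DisjS.1 h3 x (q', q2.2) ⟨hq', le_rfl⟩ h4 h5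
    · obtain ⟨h1, h2, h3⟩ := hdown q2 (hq2.trans hq1)
      obtain ⟨r, hr, -, h4⟩ := separate hb hc h2 h1
        (mem_DisjS.2 fun x q hq h4 h5 => mem_DisjS.1 h3 x q hq h5 h4) hδ
      exact ⟨r, hr.trans (hq2.trans hq1), h4⟩
  · obtain ⟨h1, h2, h3⟩ := hdown q1 hq1
    obtain ⟨r, hr, h4, -⟩ := separate hb hc h1 h2 h3 hδ
    exact ⟨r, hr.trans hq1, h4⟩

theorem dowkerOn [WellFoundedLT W] (hb : Bddd W) (hc : ∀ a : W, (Iic a).Countable)
    (p : LQ W × Cond μ) : p ∈ DowkerOn (LQ W × Cond μ) (W × ℕ) :=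
  ⟨not_ctbl hb p, mem_fex_of NN fun q _ =>
    ⟨nbSys hb q, locCtbl hc q, t1S hb q, normalS hb hc q, dowkerS hb q⟩⟩

end Pool.Agent.Q300.Dow
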